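import Pool.Agent.H7.TF.Defs

/-!
# MP_7a929c_al : targets of the modules
-/

set_option autoImplicit false

namespace Pool.Agent.H7.TF

open Equiv

/-! ## A. Permutations -/

/-- A1. effect of a transposition on the number of cycles -/
def T_A1 : Prop := ∀ (D : Type) [Fintype D] [DecidableEq D] (α : Perm D) (x y : D), x ≠ y →
  (α.SameCycle x y → nc (α * swap x y) = nc α + 1 ∧ nc (swap x y * α) = nc α + 1) ∧
  (¬ α.SameCycle x y → nc (α * swap x y) + 1 = nc α ∧ nc (swap x y * α) + 1 = nc α)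

/-- A2. the genus is nonnegative -/
def T_A2 : Prop := ∀ (D : Type) [Fintype D] [DecidableEq D] (α β : Perm D),
  nc α + nc β + nc (α * β) ≤ Nat.card D + 2 * comps α β

/-- A3. moves preserving planarity -/
def T_A3 : Prop := ∀ (D : Type) [Fintype D] [DecidableEq D] (α β : Perm D) (x y : D),
  Planar α β → x ≠ y →
  ((α.SameCycle x y ∨ β.SameCycle x y) →
    Planar (α * swap x y) (swap x y * β) ∧ conn (α * swap x y) (swap x y * β) ≤ conn α β) ∧
  ((α.SameCycle x y ∨ (α * β).SameCycle x y) →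
    Planar (swap x y * α) β ∧ conn (swap x y * α) β ≤ conn α β) ∧
  (¬ conn α β x y → Planar α (swap x y * β))

/-- A4. isolating a dart -/
def T_A4 : Prop := ∀ (D : Type) [Fintype D] [DecidableEq D] (α β : Perm D) (d : D),
  Planar α β →
  (α d = d → Planar α (swap d (β d) * β) ∧ conn α (swap d (β d) * β) ≤ conn α β) ∧
  (β d = d → Planar (α * swap d (α⁻¹ d)) β ∧ conn (α * swap d (α⁻¹ d)) β ≤ conn α β) ∧
  (Planar (α * swap d (α⁻¹ d)) (swap d (β d) * β) ∧
    conn (α * swap d (α⁻¹ d)) (swap d (β d) * β) ≤ conn α β)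

/-- A5. restriction to a connected component -/
def T_A5 : Prop := ∀ (D : Type) [Fintype D] [DecidableEq D] (α β : Perm D) (x0 : D),
  Planar α β → ∃ (hα : ∀ d, conn α β x0 (α d) ↔ conn α β x0 d)
    (hβ : ∀ d, conn α β x0 (β d) ↔ conn α β x0 d),
    Planar (α.subtypePerm hα) (β.subtypePerm hβ) ∧
    ∀ a b : {d // conn α β x0 d}, conn (α.subtypePerm hα) (β.subtypePerm hβ) a b

/-- A6. existence of the cut -/
def T_A6 : Prop := ∀ (D : Type) [Fintype D] [DecidableEq D] (σ θ : Perm D) (O : Set D),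
  Planar σ θ → ∃ ω, Cut σ θ ω O

/-- A7. the van Kampen lemma for spheres with one hole, in an arbitrary group: if all faces of the
component of `d0`, except the face of `d0`, have trivial holonomy, so has the face of `d0` -/
def T_A7 : Prop := ∀ (D : Type) [Fintype D] [DecidableEq D] (σ θ : Perm D), Planar σ θ →
  ∀ (G : Type) [Group G] (H : D → G) (d0 : D),
    (∀ d, conn σ θ d0 d → ¬ (σ * θ).SameCycle d0 d → cycProd (σ * θ) (lab σ H) d = 1) →
    cycProd (σ * θ) (lab σ H) d0 = 1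

/-- A8. the segments of a cut -/
def T_A8 : Prop := ∀ (D : Type) [Fintype D] [DecidableEq D] (σ θ ω : Perm D) (O : Set D),
  Cut σ θ ω O → ∀ d ∈ O, ∃ n : ℕ, n + 1 = Function.minimalPeriod (ω * σ) d ∧
    (∀ i, 1 ≤ i → i ≤ n → (σ ^ i) d ∉ O ∧ ((ω * σ) ^ i) d = (σ ^ i) d) ∧
    (σ ^ (n + 1)) d ∈ O ∧ ω ((σ ^ (n + 1)) d) = d

/-- A9. the Euler characteristic of the cut map, and all regions meet `O` -/
def T_A9 : Prop := ∀ (D : Type) [Fintype D] [DecidableEq D] (σ θ ω : Perm D) (O : Set D),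
  Planar σ θ → (∀ x y, conn σ θ x y) → Cut σ θ ω O → O.Nonempty →
  2 * comps (ω * σ) θ + mt σ O + mt (σ * θ) O = 2 + Nat.card O + mt (ω * (σ * θ)) O ∧
  ∀ x, ∃ d ∈ O, conn (ω * σ) θ x d

/-! ## B. Moves on pictures -/

/-- B1. removing hole corners (the dart `d` becomes isolated) -/
def T_B1 : Prop := ∀ (P : Type) [Group P] (R : List (Rel P)) (D : Type) [Fintype D]
  [DecidableEq D] (σ θ : Perm D) (h : D → P) (ty : D → Fin 3) (kind : D → Option (ℕ × Bool × ℕ))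
  (d : D), IsPic R σ θ h ty kind → kind d = none →
  ((σ * θ) d ≠ d → h (σ⁻¹ d) = h d → ∃ σ' θ' : Perm D, IsPic R σ' θ' h ty kind ∧
      σ' * θ' = swap d ((σ * θ) d) * (σ * θ) ∧ σ' d = d ∧ θ' d = d ∧
      (∀ y, y ≠ d → lab σ' h y = lab σ h y) ∧ conn σ' θ' ≤ conn σ θ) ∧
  ((σ * θ) d ≠ d → ty ((σ * θ) d) = ty d → ∃ σ' θ' : Perm D, IsPic R σ' θ' h ty kind ∧
      σ' * θ' = swap d ((σ * θ) d) * (σ * θ) ∧ σ' d = d ∧ θ' d = d ∧
      (∀ y, y ≠ d → y ≠ (σ * θ) d → lab σ' h y = lab σ h y) ∧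
      lab σ' h ((σ * θ) d) = lab σ h d * lab σ h ((σ * θ) d) ∧ conn σ' θ' ≤ conn σ θ) ∧
  ((σ * θ) d = d → ∃ σ' θ' : Perm D, IsPic R σ' θ' h ty kind ∧
      σ' * θ' = σ * θ ∧ σ' d = d ∧ θ' d = d ∧
      (∀ y, y ≠ d → lab σ' h y = lab σ h y) ∧ conn σ' θ' ≤ conn σ θ)

/-- B2. killing a hole whose word is trivial in the free product -/
def T_B2 : Prop := ∀ (P : Type) [Group P] (R : List (Rel P)) (D : Type) [Fintype D]
  [DecidableEq D] (σ θ : Perm D) (h : D → P) (ty : D → Fin 3) (kind : D → Option (ℕ × Bool × ℕ))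
  (d : D), IsPic R σ θ h ty kind → kind d = none → cycProd (σ * θ) (elt σ h ty) d = 1 →
  ∃ σ' θ' : Perm D, IsPic R σ' θ' h ty kind ∧
    (∀ z, (σ * θ).SameCycle d z → σ' z = z ∧ θ' z = z) ∧
    (∀ z, ¬ (σ * θ).SameCycle d z → (σ' * θ') z = (σ * θ) z ∧ lab σ' h z = lab σ h z) ∧
    conn σ' θ' ≤ conn σ θ

/-- B3. the diamond move, and merging two adjacent mirror faces into a hole with trivial word -/
def T_B3 : Prop := ∀ (P : Type) [Group P] (R : List (Rel P)) (D : Type) [Fintype D]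
  [DecidableEq D] (σ θ : Perm D) (h : D → P) (ty : D → Fin 3) (kind : D → Option (ℕ × Bool × ℕ))
  (d d' : D) (j : ℕ) (s : Bool) (k : ℕ), IsPic R σ θ h ty kind → σ.SameCycle d d' →
  kind d = some (j, s, k) → kind d' = some (j, !s, k) → h d = h (σ⁻¹ d') →
  ∃ (σ' θ' : Perm D) (kind' : D → Option (ℕ × Bool × ℕ)), IsPic R σ' θ' h ty kind' ∧
    σ' d = d ∧ θ' d = d ∧ kind' d = none ∧ kind' d' = none ∧
    (∀ z, (σ * θ).SameCycle d z ∨ (σ * θ).SameCycle d' z →
      kind' z = none ∧ (z = d ∨ (σ' * θ').SameCycle d' z)) ∧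
    (∀ z, ¬ ((σ * θ).SameCycle d z ∨ (σ * θ).SameCycle d' z) →
      kind' z = kind z ∧ (σ' * θ') z = (σ * θ) z ∧ lab σ' h z = lab σ h z) ∧
    cycProd (σ' * θ') (elt σ' h ty) d' = 1 ∧ conn σ' θ' ≤ conn σ θ

/-- B4. cancelling a mirror pair of faces (from B2 and B3) -/
def T_B4 : Prop := ∀ (P : Type) [Group P] (R : List (Rel P)) (D : Type) [Fintype D]
  [DecidableEq D] (σ θ : Perm D) (h : D → P) (ty : D → Fin 3) (kind : D → Option (ℕ × Bool × ℕ))
  (d d' : D) (j : ℕ) (s : Bool) (k : ℕ), IsPic R σ θ h ty kind → σ.SameCycle d d' →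
  kind d = some (j, s, k) → kind d' = some (j, !s, k) → h d = h (σ⁻¹ d') →
  ∃ (σ' θ' : Perm D) (kind' : D → Option (ℕ × Bool × ℕ)), IsPic R σ' θ' h ty kind' ∧
    (∀ z, (σ * θ).SameCycle d z ∨ (σ * θ).SameCycle d' z →
      kind' z = none ∧ σ' z = z ∧ θ' z = z) ∧
    (∀ z, ¬ ((σ * θ).SameCycle d z ∨ (σ * θ).SameCycle d' z) →
      kind' z = kind z ∧ (σ' * θ') z = (σ * θ) z ∧ lab σ' h z = lab σ h z) ∧
    conn σ' θ' ≤ conn σ θ

/-- B5. gluing two pictures at primary vertices of their holes -/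
def T_B5 : Prop := ∀ (P : Type) [Group P] (R : List (Rel P)) (X Y : List (Fin 3 × P)),
  Bd R X → Bd R Y → Bd R (X ++ Y)

/-- B6. the basic pictures: one relator face and one hole; a spike -/
def T_B6 : Prop := ∀ (P : Type) [Group P] (R : List (Rel P)), Fold R →
  (∀ r ∈ R, Bd R r.word ∧ Bd R (invW r.word)) ∧
  ∀ (i : Fin 3) (x : P), Bd R [(i, x), (i, x⁻¹)]

/-- B7. operations on hole words -/
def T_B7 : Prop := ∀ (P : Type) [Group P] (R : List (Rel P)),
  (∀ X Y, Bd R (X ++ Y) → Bd R (Y ++ X)) ∧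
  (∀ (i : Fin 3) (Y : List (Fin 3 × P)), Y ≠ [] → Bd R ((i, 1) :: Y) → Bd R Y) ∧
  (∀ (i : Fin 3) (x y : P) (Y : List (Fin 3 × P)), Bd R ((i, x) :: (i, y) :: Y) →
    Bd R ((i, x * y) :: Y))

/-- B8. van Kampen's lemma: reduced words in `NR R` bound pictures -/
def T_B8 : Prop := ∀ (P : Type) [Group P] (R : List (Rel P)), Fold R →
  ∀ X : List (Fin 3 × P), Red X → X ≠ [] → ev X ∈ NR R → Bd R X

/-- B9. van Kampen's lemma with strongly reduced connected pictures -/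
def T_B9 : Prop := ∀ (P : Type) [Group P] (R : List (Rel P)), Fold R →
  ∀ X : List (Fin 3 × P), Red X → X ≠ [] → ev X ∈ NR R →
  ∃ (D : Type) (_ : Fintype D) (_ : DecidableEq D) (σ θ : Perm D) (h : D → P) (ty : D → Fin 3)
    (kind : D → Option (ℕ × Bool × ℕ)) (d0 : D),
    IsPic R σ θ h ty kind ∧ HoleAt σ θ h ty kind d0 X ∧ Reduced σ h kind ∧
    ∀ x y, conn σ θ x y

/-- B10. converse: the word of the only hole of a component is in `NR R` -/
def T_B10 : Prop := ∀ (P : Type) [Group P] (R : List (Rel P)) (D : Type) [Fintype D]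
  [DecidableEq D] (σ θ : Perm D) (h : D → P) (ty : D → Fin 3) (kind : D → Option (ℕ × Bool × ℕ))
  (d0 : D), IsPic R σ θ h ty kind → kind d0 = none →
  (∀ d, conn σ θ d0 d → kind d = none → (σ * θ).SameCycle d0 d) →
  cycProd (σ * θ) (elt σ h ty) d0 ∈ NR R

/-- B11. normal forms in the free product -/
def T_B11 : Prop := ∀ (P : Type) [Group P],
  (∀ X : List (Fin 3 × P), Red X → ev X = 1 → X = []) ∧
  (∀ X Y : List (Fin 3 × P), Red X → Red Y → ev X = ev Y → X = Y) ∧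
  (∀ w : FP P, ∃ X, Red X ∧ ev X = w) ∧
  (∀ (l m : Fin 3) (w : FP P), l ≠ m → ∃ (p q : P) (g : List (Fin 3 × P)), Red g ∧
    (∀ x, g.head? = some x → x.1 ≠ l) ∧ (∀ x, g.getLast? = some x → x.1 ≠ m) ∧
    w = emb l p * ev g * emb m q)

/-! ## C. The inductive step -/

/-- output corners of level `n`: the corners `a` and `b` of the faces of level `n` -/
def outs {D : Type} (n : ℕ) (kind : D → Option (ℕ × Bool × ℕ)) : Set D :=
  {d | ∃ s, kind d = some (n, s, 0) ∨ kind d = some (n, s, 1)}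

/-- all faces of level `≥ n` become holes -/
def kcut {D : Type} (n : ℕ) (kind : D → Option (ℕ × Bool × ℕ)) (d : D) :
    Option (ℕ × Bool × ℕ) :=
  match kind d with
  | some (j, s, k) => if j < n then some (j, s, k) else none
  | none => none

/-- length of the segment after the output corner `d` -/
noncomputable def seg {D : Type} (σ ω : Perm D) (d : D) : ℕ :=
  Function.minimalPeriod (ω * σ) d - 1

/-- Context of the step: a connected reduced picture over `R ++ [r]`, `r = a b g⁻¹`, cut at the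
output corners of the top level. -/
structure Ctx (P : Type) [Group P] where
  τ : P →* Multiplicative ℤ
  R : List (Rel P)
  C : ℕ
  l : Fin 3
  m : Fin 3
  a : P
  b : P
  g : List (Fin 3 × P)
  s : ℕ
  Lb : Set P
  hQ : QB R C
  facts : Facts R l m g
  ga : Gen τ (prodsLE Lb s) a
  gb : Gen τ (prodsLE Lb s) b
  D : Type
  fD : Fintype D
  dD : DecidableEq D
  σ : Perm D
  θ : Perm D
  h : D → P
  ty : D → Fin 3
  kind : D → Option (ℕ × Bool × ℕ)
  pic : IsPic (R ++ [⟨l, m, a, b, g⟩]) σ θ h ty kind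
  red : Reduced σ h kind
  con : ∀ x y, conn σ θ x y
  ω : Perm D
  cut : Cut σ θ ω (outs R.length kind)
  ne : (outs R.length kind).Nonempty
  lbl : ∀ d, kind d ≠ none → d ∉ outs R.length kind → lab σ h d ∈ Lb

namespace Ctx

variable {P : Type} [Group P] (c : Ctx P)

attribute [instance] Ctx.fD Ctx.dD

/-- the output corners -/
def O : Set c.D := outs c.R.length c.kind

/-- the regions -/
abbrev Reg : Type := Quotient (conn (c.ω * c.σ) c.θ)

/-- the region of a dart -/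
def rg (d : c.D) : c.Reg := Quotient.mk _ d

/-- number of output corners in a region -/
noncomputable def mQ (q : c.Reg) : ℕ := Nat.card {d : c.D // c.rg d = q ∧ d ∈ c.O}

/-- number of hole corners in a region -/
noncomputable def bQ (q : c.Reg) : ℕ := Nat.card {d : c.D // c.rg d = q ∧ c.kind d = none}

/-- number of boundary components of a region -/
noncomputable def tQ (q : c.Reg) : ℕ :=
  Nat.card {z : Quotient (Perm.SameCycle.setoid (c.ω * (c.σ * c.θ))) //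
    ∃ x ∈ c.O, Quotient.mk _ x = z ∧ c.rg x = q}

/-- number of deep segments in a region -/
noncomputable def dQ (q : c.Reg) : ℕ :=
  Nat.card {d : c.D // c.rg d = q ∧ d ∈ c.O ∧ c.s < seg c.σ c.ω d}

/-- number of output corners at vertices with holes -/
noncomputable def KB : ℕ :=
  Nat.card {d : c.D // d ∈ c.O ∧ ∃ z, c.σ.SameCycle d z ∧ c.kind z = none}

/-- the region contains a hole or an output corner at a vertex with a hole -/
def act (q : c.Reg) : Prop :=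
  0 < c.bQ q ∨ ∃ d, c.rg d = q ∧ d ∈ c.O ∧ ∃ z, c.σ.SameCycle d z ∧ c.kind z = none

end Ctx

/-- length of the run of letters of `g` after an output corner of sign `s` and position `k` -/
def rl (n : ℕ) (s : Bool) (k : ℕ) : ℕ := if (s = true ∧ k = 0) ∨ (s = false ∧ k = 1) then 0 else n

/-- C0. the faces of the cut picture -/
def T_C0 : Prop := ∀ (P : Type) [Group P] (c : Ctx P),
  (∀ o s k, c.kind o = some (c.R.length, s, k) → k < 2 →
    o ∈ c.O ∧ (∃ s', c.kind (c.ω o) = some (c.R.length, s', k)) ∧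
    (∃ s', c.kind (c.ω⁻¹ o) = some (c.R.length, s', k)) ∧
    (∀ i, 1 ≤ i → i ≤ rl c.g.length s k → ((c.σ * c.θ) ^ i) o ∉ c.O ∧
      ((c.ω * (c.σ * c.θ)) ^ i) o = ((c.σ * c.θ) ^ i) o ∧
      ∃ k', c.kind (((c.σ * c.θ) ^ i) o) = some (c.R.length, s, k')) ∧
    c.kind (((c.σ * c.θ) ^ (rl c.g.length s k + 1)) o) = some (c.R.length, s, 1 - k) ∧
    ((c.ω * (c.σ * c.θ)) ^ (rl c.g.length s k + 1)) o =
      c.ω (((c.σ * c.θ) ^ (rl c.g.length s k + 1)) o) ∧
    ((List.range (rl c.g.length s k)).map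
      (fun i => elt (c.ω * c.σ) c.h c.ty (((c.σ * c.θ) ^ (i + 1)) o))).prod =
      (if (s = true ∧ k = 0) ∨ (s = false ∧ k = 1) then 1
        else if s = true then (ev c.g)⁻¹ else ev c.g)) ∧
  (∀ z s k, c.kind z = some (c.R.length, s, k) → z ∉ c.O →
    ∃ o k0 i, k0 < 2 ∧ c.kind o = some (c.R.length, s, k0) ∧ 1 ≤ i ∧
      i ≤ rl c.g.length s k0 ∧ z = ((c.σ * c.θ) ^ i) o) ∧
  (∀ z, c.kind z = none → z ∉ c.O ∧ c.kind ((c.σ * c.θ) z) = none ∧
    (c.ω * (c.σ * c.θ)) z = (c.σ * c.θ) z)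

/-- C1. the cut picture is a reduced picture over `R` -/
def T_C1 : Prop := ∀ (P : Type) [Group P] (c : Ctx P),
  IsPic c.R (c.ω * c.σ) c.θ c.h c.ty (kcut c.R.length c.kind) ∧
  Reduced (c.ω * c.σ) c.h (kcut c.R.length c.kind) ∧
  (∀ d, d ∉ c.O → lab (c.ω * c.σ) c.h d = lab c.σ c.h d)

/-- C2. vertices with at most three output corners have a deep segment -/
def T_C2 : Prop := ∀ (P : Type) [Group P] (c : Ctx P), ∀ d ∈ c.O,
  (∀ z, c.σ.SameCycle d z → c.kind z = none → lab c.σ c.h z ∈ c.Lb) →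
  ∀ k, 1 ≤ k → k ≤ 3 → ((c.ω⁻¹) ^ k) d = d → ∃ i < k, c.s < seg c.σ c.ω (((c.ω⁻¹) ^ i) d)

/-- C3. counting at the vertices -/
def T_C3 : Prop := ∀ (P : Type) [Group P] (c : Ctx P),
  (4 * mt c.σ c.O + c.KB ≤ Nat.card c.O +
    3 * Nat.card {d : c.D // d ∈ c.O ∧ c.s < seg c.σ c.ω d} +
    4 * Nat.card {d : c.D // c.kind d = none}) ∧
  ((∀ z, c.kind z = none → lab c.σ c.h z ∈ c.Lb) →
    4 * mt c.σ c.O ≤ Nat.card c.O + 3 * Nat.card {d : c.D // d ∈ c.O ∧ c.s < seg c.σ c.ω d})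

/-- C4. simply connected regions without holes have at least four sides; every face of the top
level has two output corners -/
def T_C4 : Prop := ∀ (P : Type) [Group P] (c : Ctx P),
  (∀ q, c.tQ q = 1 → c.bQ q = 0 → 4 ≤ c.mQ q) ∧
  Nat.card c.O = 2 * mt (c.σ * c.θ) c.O

/-- C5. counting in a region -/
def T_C5 : Prop := ∀ (P : Type) [Group P] (c : Ctx P), ∀ q,
  1 ≤ c.tQ q ∧ 1 ≤ c.mQ q ∧
  (c.s + 1) * c.dQ q ≤ (c.C + 1) * (c.bQ q + (1 + c.g.length) * c.mQ q)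

/-- C6. totals over the regions (`Fintype` structure on the regions by classical choice) -/
def T_C6 : Prop := ∀ (P : Type) [Group P] (c : Ctx P),
  ∃ _ : Fintype c.Reg, Fintype.card c.Reg = comps (c.ω * c.σ) c.θ ∧
    ∑ q, c.mQ q = Nat.card c.O ∧ ∑ q, c.bQ q = Nat.card {d : c.D // c.kind d = none} ∧
    ∑ q, c.tQ q = mt (c.ω * (c.σ * c.θ)) c.O ∧
    ∑ q, c.dQ q = Nat.card {d : c.D // d ∈ c.O ∧ c.s < seg c.σ c.ω d}

/-- C7. counting the relator corners at the boundary vertices -/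
def T_C7 : Prop := ∀ (P : Type) [Group P] (c : Ctx P) (_ : Fintype c.Reg)
  (_ : DecidablePred c.act) (x : c.D),
  bdry c.σ c.θ c.kind x ≤ c.KB +
    ∑ q ∈ Finset.univ.filter (fun q => c.act q), (c.C + 1) * (c.bQ q + (1 + c.g.length) * c.mQ q) ∧
  Nat.card {q : c.Reg // c.act q ∧ c.bQ q = 0} ≤ c.KB

/-- C8. arithmetic -/
def T_C8 : Prop := ∀ (Q : Type) [Fintype Q] (t m b d : Q → ℕ) (V E KB : ℕ),
  (∀ q, 1 ≤ t q) → (∀ q, 1 ≤ m q) → (∀ q, t q = 1 → b q = 0 → 4 ≤ m q) →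
  (∀ q, 24 * d q ≤ b q + m q) →
  4 * V + KB ≤ ∑ q, m q + 3 * ∑ q, d q + 4 * ∑ q, b q →
  2 * Fintype.card Q + V = 2 + E + ∑ q, t q → ∑ q, m q = 2 * E →
  16 + 2 * KB + ∑ q, m q ≤ 18 * ∑ q, b q +
    4 * (Finset.univ.filter (fun q => t q = 1 ∧ b q = 0)).card

/-- C9. the inductive inequality for the next level -/
def T_C9 : Prop := ∀ (P : Type) [Group P] (τ : P →* Multiplicative ℤ) (R : List (Rel P)) (C : ℕ)
  (l m : Fin 3) (a b : P) (g : List (Fin 3 × P)) (s : ℕ) (Lb : Set P),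
  QB R C → Facts R l m g → Lets R g ⊆ Lb →
  Gen τ (prodsLE Lb s) a → Gen τ (prodsLE Lb s) b →
  24 * (C + 1) * (1 + g.length) ≤ s + 1 →
  QB (R ++ [⟨l, m, a, b, g⟩]) (9 + (C + 1) * (1 + 54 * (1 + g.length)))

/-- C10. protecting a word -/
def T_C10 : Prop := ∀ (P : Type) [Group P] (τ : P →* Multiplicative ℤ) (R : List (Rel P)) (C : ℕ)
  (l m : Fin 3) (a b : P) (g : List (Fin 3 × P)) (s : ℕ) (Lb : Set P) (X : List (Fin 3 × P)),
  QB R C → Facts R l m g → Lets R g ⊆ Lb → Lets R X ⊆ Lb →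
  Gen τ (prodsLE Lb s) a → Gen τ (prodsLE Lb s) b →
  24 * (C + 1) * (1 + g.length + X.length) ≤ s + 1 →
  Fold (R ++ [⟨l, m, a, b, g⟩]) → Red X → X ≠ [] → ev X ∉ NR R →
  ev X ∉ NR (R ++ [⟨l, m, a, b, g⟩])

/-- C11. short words with letters of large degree are nontrivial -/
def T_C11 : Prop := ∀ (P : Type) [Group P] (τ : P →* Multiplicative ℤ) (R : List (Rel P)) (C : ℕ),
  QB R C → Fold R → ∀ B : ℕ, ∃ n0 : ℕ, ∀ X : List (Fin 3 × P), Red X → X ≠ [] → X.length ≤ B →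
    (∀ x ∈ X, n0 ≤ deg τ x.2) → ev X ∉ NR R

/-- C12. trivial intersections -/
def T_C12 : Prop := ∀ (P : Type) [Group P] (R : List (Rel P)) (C : ℕ),
  (∀ x : P, x ≠ 1 → ∀ n : ℕ, 0 < n → x ^ n ≠ 1) →
  QB R C → Fold R → ∀ (l m : Fin 3) (g : List (Fin 3 × P)), l ≠ m → Red g →
    (∀ x, g.head? = some x → x.1 ≠ l) → (∀ x, g.getLast? = some x → x.1 ≠ m) →
    ∀ u v : P, emb l u * ev g * emb m v * (ev g)⁻¹ ∈ NR R → u = 1 ∧ v = 1

/-! ## D. The group `P` and the end of the proof -/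

/-- properties of the group `P` -/
structure GoodP (P : Type) [Group P] (τ : P →* Multiplicative ℤ) (t : P) : Prop where
  cnt : Countable P
  tor : ∀ x : P, x ≠ 1 → ∀ n : ℕ, 0 < n → x ^ n ≠ 1
  deg_t : τ t = Multiplicative.ofAdd 1
  gen : ∀ S : Set P, S.Finite → ∀ c : P, ∃ a : P, Gen τ S a ∧ Gen τ S (a⁻¹ * c)
  solv : IsSolvable P
  noeth : ∀ K : Subgroup P, K.FG

/-- D1. existence of `P` -/
def T_D1 : Prop := ∃ (P : Type) (_ : Group P) (τ : P →* Multiplicative ℤ) (t : P), GoodP P τ t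

/-- the map from the free product of two infinite cyclic groups -/
def jmap {P : Type} [Group P] (t : P) (n : ℕ) :
    Monoid.CoprodI (fun _ : Fin 2 => Multiplicative ℤ) →* FP P :=
  Monoid.CoprodI.lift fun i => (emb (Fin.castSucc i)).comp (zpowersHom P (t ^ n))

/-- states of the construction: `W` is the list of protected words -/
structure St {P : Type} [Group P] (R : List (Rel P)) (C : ℕ) (W : List (List (Fin 3 × P))) :
    Prop where
  hQ : QB R C
  hF : Fold R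
  prot : ∀ X ∈ W, Red X ∧ X ≠ [] ∧ ev X ∉ NR R

/-- DA. factorizing one element -/
def T_DA : Prop := ∀ (P : Type) [Group P] (τ : P →* Multiplicative ℤ) (t : P), GoodP P τ t →
  ∀ (R : List (Rel P)) (C : ℕ) (W : List (List (Fin 3 × P))), St R C W →
  ∀ (l m : Fin 3) (w : FP P), l ≠ m → ∃ (R' : List (Rel P)) (C' : ℕ),
    R <+: R' ∧ St R' C' W ∧ ∃ p q : P, (emb l p * emb m q)⁻¹ * w ∈ NR R'

/-- DB. protecting the value of one word on `t ^ n` -/
def T_DB : Prop := ∀ (P : Type) [Group P] (τ : P →* Multiplicative ℤ) (t : P), GoodP P τ t →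
  ∀ (R : List (Rel P)) (C : ℕ) (W : List (List (Fin 3 × P))), St R C W →
  ∀ v : Monoid.CoprodI (fun _ : Fin 2 => Multiplicative ℤ), v ≠ 1 → ∀ k : ℕ, 0 < k →
    ∃ (n : ℕ) (X : List (Fin 3 × P)), k ∣ n ∧ 0 < n ∧ ev X = jmap t n v ∧ St R C (X :: W)

/-- D2. the limit group -/
def T_D2 : Prop := ∀ (P : Type) [Group P] (τ : P →* Multiplicative ℤ) (t : P), GoodP P τ t →
  ∃ N : Subgroup (FP P), N.Normal ∧
    (∀ (l m : Fin 3) (w : FP P), l ≠ m → ∃ p q : P, (emb l p * emb m q)⁻¹ * w ∈ N) ∧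
    (∀ v : Monoid.CoprodI (fun _ : Fin 2 => Multiplicative ℤ), v ≠ 1 → ∀ k : ℕ, 0 < k →
      ∃ n, k ∣ n ∧ 0 < n ∧ jmap t n v ∉ N)

/-- D3. the map `jmap` is given by reduced words with letters of large degree -/
def T_D3 : Prop := ∀ (P : Type) [Group P] (τ : P →* Multiplicative ℤ) (t : P),
  τ t = Multiplicative.ofAdd 1 →
  ∀ v : Monoid.CoprodI (fun _ : Fin 2 => Multiplicative ℤ), v ≠ 1 → ∃ B : ℕ, ∀ n : ℕ, 0 < n →
    ∃ X : List (Fin 3 × P), Red X ∧ X ≠ [] ∧ X.length ≤ B ∧ (∀ x ∈ X, n ≤ deg τ x.2) ∧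
      ev X = jmap t n v

/-- D4. the end of the proof -/
def T_D4 : Prop := T_D1 → T_D2 →
  ∃ (G : Type) (_ : Group G) (A : Fin 3 → Subgroup G),
    (∀ i j, i ≠ j → ∀ x : G, ∃ y ∈ A i, ∃ z ∈ A j, x = y * z) ∧
    (∀ i, IsSolvable (A i) ∧ ∀ K : Subgroup (A i), K.FG) ∧
    ∀ H : Subgroup G, H.index ≠ 0 → ¬ IsSolvable H

end Pool.Agent.H7.TF
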