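import Pool.Agent.H7.TF.Defs

/-!
# MP_7a929c_al : toolkit
-/

set_option autoImplicit false

namespace Pool.Agent.H7.TF

open Equiv

/-! ## Permutations and components -/

section Perm

variable {D : Type}

theorem conn_of_sameCycle_left {α β : Perm D} {x y : D} (h : α.SameCycle x y) :
    conn α β x y :=
  (le_sup_left : Perm.SameCycle.setoid α ≤ conn α β) h

theorem conn_of_sameCycle_right {α β : Perm D} {x y : D} (h : β.SameCycle x y) :
    conn α β x y :=
  (le_sup_right : Perm.SameCycle.setoid β ≤ conn α β) h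

theorem sameCycle_self_apply (α : Perm D) (x : D) : α.SameCycle x (α x) := ⟨1, by simp⟩

theorem conn_left (α β : Perm D) (x : D) : conn α β x (α x) :=
  conn_of_sameCycle_left (sameCycle_self_apply α x)

theorem conn_right (α β : Perm D) (x : D) : conn α β x (β x) :=
  conn_of_sameCycle_right (sameCycle_self_apply β x)

theorem conn_mul (α β : Perm D) (x : D) : conn α β x ((α * β) x) :=
  (conn α β).trans (conn_right α β x) (conn_left α β (β x))

/-- a relation (setoid) containing the two permutations contains `conn` -/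
theorem conn_le_iff {α β : Perm D} {S : Setoid D} :
    conn α β ≤ S ↔ (∀ x, S x (α x)) ∧ ∀ x, S x (β x) := by
  constructor
  · intro h
    exact ⟨fun x => h (conn_left α β x), fun x => h (conn_right α β x)⟩
  · rintro ⟨h1, h2⟩
    have key : ∀ γ : Perm D, (∀ x, S x (γ x)) → Perm.SameCycle.setoid γ ≤ S := by
      intro γ hγ x y hxy
      obtain ⟨i, rfl⟩ : γ.SameCycle x y := hxy
      induction i using Int.induction_on with
      | zero => exact S.refl _
      | succ i ih =>
        have : (γ ^ ((i : ℤ) + 1)) x = γ ((γ ^ (i : ℤ)) x) := by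
          rw [add_comm, zpow_add, zpow_one]; rfl
        rw [this]
        exact S.trans ih (hγ _)
      | pred i ih =>
        have : (γ ^ (-(i : ℤ) - 1)) x = γ⁻¹ ((γ ^ (-(i : ℤ))) x) := by
          rw [sub_eq_add_neg, add_comm, zpow_add, zpow_neg_one]; rfl
        rw [this]
        have h3 := hγ (γ⁻¹ ((γ ^ (-(i : ℤ))) x))
        have h4 : γ (γ⁻¹ ((γ ^ (-(i : ℤ))) x)) = (γ ^ (-(i : ℤ))) x := by simp
        rw [h4] at h3
        exact S.trans ih (S.symm h3)
    exact sup_le (key α h1) (key β h2)

theorem conn_mul_le (α β : Perm D) : Perm.SameCycle.setoid (α * β) ≤ conn α β := by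
  have : conn (α * β) 1 ≤ conn α β := by
    rw [conn_le_iff]
    exact ⟨fun x => conn_mul α β x, fun x => (conn α β).refl x⟩
  exact le_trans le_sup_left this

theorem conn_of_sameCycle_mul {α β : Perm D} {x y : D} (h : (α * β).SameCycle x y) :
    conn α β x y := conn_mul_le α β h

/-- a set closed under a permutation of a finite type is closed under its cycles -/
theorem mem_of_sameCycle [Finite D] {α : Perm D} {S : Set D} (hS : ∀ z ∈ S, α z ∈ S)
    {x y : D} (hx : x ∈ S) (h : α.SameCycle x y) : y ∈ S := by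
  obtain ⟨i, hi⟩ := h.exists_pow_eq'
  rw [← hi.2]
  clear hi
  induction i with
  | zero => simpa using hx
  | succ i ih => rw [pow_succ']; exact hS _ ih

/-- a set closed under both permutations is closed under `conn` -/
theorem mem_of_conn [Finite D] {α β : Perm D} {S : Set D} (h1 : ∀ z ∈ S, α z ∈ S)
    (h2 : ∀ z ∈ S, β z ∈ S) {x y : D} (hx : x ∈ S) (h : conn α β x y) : y ∈ S := by
  have key : conn α β ≤ Setoid.comap (fun z => z ∈ S) ⊥ := by
    rw [conn_le_iff]
    have aux : ∀ γ : Perm D, (∀ z ∈ S, γ z ∈ S) → ∀ z, (z ∈ S) = (γ z ∈ S) := by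
      intro γ hγ z
      refine propext ⟨hγ z, fun hz => mem_of_sameCycle hγ hz ?_⟩
      exact (sameCycle_self_apply γ z).symm
    exact ⟨aux α h1, aux β h2⟩
  have := key h
  exact (show (x ∈ S) = (y ∈ S) from this) ▸ hx

/-- an isolated dart is alone in its component -/
theorem eq_of_isolated [Finite D] {α β : Perm D} {d : D} (h1 : α d = d) (h2 : β d = d) {z : D}
    (h : conn α β d z) : z = d := by
  have := mem_of_conn (S := {d}) (α := α) (β := β) (by simp [h1]) (by simp [h2]) rfl h
  simpa using this

theorem inv_mem_of_mapsTo [Finite D] {α : Perm D} {S : Set D} (hS : ∀ z ∈ S, α z ∈ S) {z : D}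
    (hz : z ∈ S) : α⁻¹ z ∈ S := by
  refine mem_of_sameCycle hS hz ?_
  exact ⟨-1, by simp⟩

/-! ### Lemmas J and K -/

/-- the setoid generated by one pair -/
def pr (x y : D) : Setoid D := Relation.EqvGen.setoid fun a b => a = x ∧ b = y

theorem pr_self (x y : D) : pr x y x y := Relation.EqvGen.rel _ _ ⟨rfl, rfl⟩

theorem pr_le_iff {S : Setoid D} {x y : D} : pr x y ≤ S ↔ S x y := by
  constructor
  · intro h; exact h (pr_self x y)
  · intro h
    intro a b hab
    change Relation.EqvGen (fun a b => a = x ∧ b = y) a b at hab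
    induction hab with
    | rel a b hr => rw [hr.1, hr.2]; exact h
    | refl a => exact S.refl a
    | symm a b _ ih => exact S.symm ih
    | trans a b c _ _ ih1 ih2 => exact S.trans ih1 ih2

theorem sup_pr_of_rel {S : Setoid D} {x y : D} (h : S x y) : S ⊔ pr x y = S :=
  sup_eq_left.2 (pr_le_iff.2 h)

/-- explicit description of `S ⊔ pr x y` -/
theorem sup_pr_iff {S : Setoid D} {x y a b : D} :
    (S ⊔ pr x y) a b ↔ S a b ∨ (S a x ∨ S a y) ∧ (S b x ∨ S b y) := by
  constructor
  · intro h
    let T : Setoid D :=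
      { r := fun a b => S a b ∨ (S a x ∨ S a y) ∧ (S b x ∨ S b y)
        iseqv :=
          { refl := fun a => Or.inl (S.refl a)
            symm := by
              rintro a b (h | ⟨h1, h2⟩)
              · exact Or.inl (S.symm h)
              · exact Or.inr ⟨h2, h1⟩
            trans := by
              rintro a b c (h | ⟨h1, h2⟩) (h' | ⟨h1', h2'⟩)
              · exact Or.inl (S.trans h h')
              · refine Or.inr ⟨?_, h2'⟩
                rcases h1' with h3 | h3
                · exact Or.inl (S.trans h h3)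
                · exact Or.inr (S.trans h h3)
              · refine Or.inr ⟨h1, ?_⟩
                rcases h2 with h3 | h3
                · exact Or.inl (S.trans (S.symm h') h3)
                · exact Or.inr (S.trans (S.symm h') h3)
              · exact Or.inr ⟨h1, h2'⟩ } }
    have h1 : S ≤ T := fun a b h => Or.inl h
    have h2 : pr x y ≤ T := pr_le_iff.2 (Or.inr ⟨Or.inl (S.refl x), Or.inr (S.refl y)⟩)
    exact (sup_le h1 h2) h
  · intro h
    have hS : ∀ {a b}, S a b → (S ⊔ pr x y) a b := fun h =>
      (le_sup_left : S ≤ S ⊔ pr x y) h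
    have hp : (S ⊔ pr x y) x y := (le_sup_right : pr x y ≤ S ⊔ pr x y) (pr_self x y)
    rcases h with h | ⟨h1, h2⟩
    · exact hS h
    · have e1 : (S ⊔ pr x y) a x := by
        rcases h1 with h | h
        · exact hS h
        · exact (S ⊔ pr x y).trans (hS h) ((S ⊔ pr x y).symm hp)
      have e2 : (S ⊔ pr x y) b x := by
        rcases h2 with h | h
        · exact hS h
        · exact (S ⊔ pr x y).trans (hS h) ((S ⊔ pr x y).symm hp)
      exact (S ⊔ pr x y).trans e1 ((S ⊔ pr x y).symm e2)

/-- Lemma J: gluing two classes decreases the number of classes by one -/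
theorem card_sup_pr [Finite D] {S : Setoid D} {x y : D} (h : ¬ S x y) :
    Nat.card (Quotient (S ⊔ pr x y)) + 1 = Nat.card (Quotient S) := by
  classical
  -- the quotient by `S` without the class of `y` is the new quotient
  have e : {c : Quotient S // c ≠ Quotient.mk S y} ≃ Quotient (S ⊔ pr x y) := by
    refine Equiv.ofBijective (fun c => Quotient.map' (s₁ := S) (s₂ := S ⊔ pr x y) id
      (fun a b hab => (le_sup_left : S ≤ S ⊔ pr x y) hab) c.1) ⟨?_, ?_⟩
    · rintro ⟨a, ha⟩ ⟨b, hb⟩ hab
      induction a using Quotient.inductionOn with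
      | _ a =>
      induction b using Quotient.inductionOn with
      | _ b =>
      have hab' : (S ⊔ pr x y) a b := Quotient.exact hab
      have ha' : ¬ S a y := fun h => ha (Quotient.sound h)
      have hb' : ¬ S b y := fun h => hb (Quotient.sound h)
      apply Subtype.ext
      apply Quotient.sound
      rcases sup_pr_iff.1 hab' with h | ⟨h1 | h1, h2 | h2⟩
      · exact h
      · exact S.trans h1 (S.symm h2)
      · exact absurd h2 hb'
      · exact absurd h1 ha'
      · exact absurd h1 ha'
    · intro c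
      induction c using Quotient.inductionOn with
      | _ a =>
      by_cases ha : S a y
      · refine ⟨⟨Quotient.mk S x, fun h' => h (Quotient.exact h')⟩, ?_⟩
        apply Quotient.sound
        exact sup_pr_iff.2 (Or.inr ⟨Or.inl (S.refl x), Or.inr ha⟩)
      · exact ⟨⟨Quotient.mk S a, fun h' => ha (Quotient.exact h')⟩, rfl⟩
  rw [← Nat.card_congr e]
  have h2 := Nat.card_congr (Equiv.sumCompl (fun c : Quotient S => c = Quotient.mk S y))
  rw [Nat.card_sum] at h2
  have h3 : Nat.card {c : Quotient S // c = Quotient.mk S y} = 1 := by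
    simp
  have h4 : Nat.card {c : Quotient S // c ≠ Quotient.mk S y} =
      Nat.card {c : Quotient S // ¬ c = Quotient.mk S y} := rfl
  rw [h3, ← h4] at h2
  omega

/-- Lemma K for the cycles of one permutation -/
theorem setoid_mul_swap [DecidableEq D] (α : Perm D) (x y : D) :
    Perm.SameCycle.setoid (α * swap x y) ⊔ pr x y = Perm.SameCycle.setoid α ⊔ pr x y := by
  have key : ∀ α : Perm D, Perm.SameCycle.setoid (α * swap x y) ⊔ pr x y ≤
      Perm.SameCycle.setoid α ⊔ pr x y := by
    intro α
    refine sup_le ?_ le_sup_right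
    have : conn (α * swap x y) 1 ≤ Perm.SameCycle.setoid α ⊔ pr x y := by
      rw [conn_le_iff]
      refine ⟨fun z => ?_, fun z => Setoid.refl' _ _⟩
      have h1 : ∀ z, (Perm.SameCycle.setoid α ⊔ pr x y) z (α z) := fun z =>
        (le_sup_left : Perm.SameCycle.setoid α ≤ _) (sameCycle_self_apply α z)
      have h2 : ∀ z, (Perm.SameCycle.setoid α ⊔ pr x y) z (swap x y z) := by
        intro z
        by_cases hx : z = x
        · subst hx; rw [swap_apply_left]; exact (le_sup_right : pr z y ≤ _) (pr_self _ _)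
        · by_cases hy : z = y
          · subst hy; rw [swap_apply_right]
            exact Setoid.symm' _ ((le_sup_right : pr x z ≤ _) (pr_self _ _))
          · rw [swap_apply_of_ne_of_ne hx hy]
      exact Setoid.trans' _ (h2 z) (h1 _)
    exact le_trans le_sup_left this
  apply le_antisymm (key α)
  have := key (α * swap x y)
  rwa [mul_assoc, swap_mul_self, mul_one] at this

theorem setoid_swap_mul [DecidableEq D] (α : Perm D) (x y : D) :
    Perm.SameCycle.setoid (swap x y * α) ⊔ pr x y = Perm.SameCycle.setoid α ⊔ pr x y := by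
  have key : ∀ α : Perm D, Perm.SameCycle.setoid (swap x y * α) ⊔ pr x y ≤
      Perm.SameCycle.setoid α ⊔ pr x y := by
    intro α
    refine sup_le ?_ le_sup_right
    have : conn (swap x y * α) 1 ≤ Perm.SameCycle.setoid α ⊔ pr x y := by
      rw [conn_le_iff]
      refine ⟨fun z => ?_, fun z => Setoid.refl' _ _⟩
      have h1 : ∀ z, (Perm.SameCycle.setoid α ⊔ pr x y) z (α z) := fun z =>
        (le_sup_left : Perm.SameCycle.setoid α ≤ _) (sameCycle_self_apply α z)
      have h2 : ∀ z, (Perm.SameCycle.setoid α ⊔ pr x y) z (swap x y z) := by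
        intro z
        by_cases hx : z = x
        · subst hx; rw [swap_apply_left]; exact (le_sup_right : pr z y ≤ _) (pr_self _ _)
        · by_cases hy : z = y
          · subst hy; rw [swap_apply_right]
            exact Setoid.symm' _ ((le_sup_right : pr x z ≤ _) (pr_self _ _))
          · rw [swap_apply_of_ne_of_ne hx hy]
      exact Setoid.trans' _ (h1 z) (h2 _)
    exact le_trans le_sup_left this
  apply le_antisymm (key α)
  have := key (swap x y * α)
  rwa [← mul_assoc, swap_mul_self, one_mul] at this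

theorem sup_sup_distrib (S T U : Setoid D) : S ⊔ T ⊔ U = (S ⊔ U) ⊔ (T ⊔ U) := by
  apply le_antisymm
  · exact sup_le (sup_le (le_sup_of_le_left le_sup_left) (le_sup_of_le_right le_sup_left))
      (le_sup_of_le_left le_sup_right)
  · exact sup_le (sup_le (le_sup_of_le_left le_sup_left) le_sup_right)
      (sup_le (le_sup_of_le_left le_sup_right) le_sup_right)

/-- Lemma K for `conn` -/
theorem conn_swap_sup [DecidableEq D] (α β : Perm D) (x y : D) :
    conn (α * swap x y) (swap x y * β) ⊔ pr x y = conn α β ⊔ pr x y := by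
  unfold conn
  rw [sup_sup_distrib, setoid_mul_swap, setoid_swap_mul, ← sup_sup_distrib]

theorem conn_swap_right_sup [DecidableEq D] (α β : Perm D) (x y : D) :
    conn α (swap x y * β) ⊔ pr x y = conn α β ⊔ pr x y := by
  unfold conn
  rw [sup_sup_distrib, setoid_swap_mul, ← sup_sup_distrib]

theorem conn_swap_left_sup [DecidableEq D] (α β : Perm D) (x y : D) :
    conn (swap x y * α) β ⊔ pr x y = conn α β ⊔ pr x y := by
  unfold conn
  rw [sup_sup_distrib, setoid_swap_mul, ← sup_sup_distrib]

theorem conn_mul_swap_left_sup [DecidableEq D] (α β : Perm D) (x y : D) :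
    conn (α * swap x y) β ⊔ pr x y = conn α β ⊔ pr x y := by
  unfold conn
  rw [sup_sup_distrib, setoid_mul_swap, ← sup_sup_distrib]

end Perm

/-! ## Products along cycles -/

section CycProd

variable {D : Type} {G : Type} [Group G]

theorem iterate_eq_pow (φ : Perm D) (n : ℕ) (d : D) : (φ : D → D)^[n] d = (φ ^ n) d := by
  rw [Perm.coe_pow]

theorem minimalPeriod_pos [Finite D] (φ : Perm D) (d : D) : 0 < Function.minimalPeriod φ d := by
  classical
  haveI := Fintype.ofFinite D
  refine Function.minimalPeriod_pos_of_mem_periodicPts ⟨orderOf φ, orderOf_pos φ, ?_⟩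
  rw [Function.IsPeriodicPt, Function.IsFixedPt, iterate_eq_pow, pow_orderOf_eq_one]
  rfl

theorem pow_minimalPeriod (φ : Perm D) (d : D) : (φ ^ Function.minimalPeriod φ d) d = d := by
  rw [← iterate_eq_pow]
  exact Function.isPeriodicPt_minimalPeriod φ d

/-- recognising the minimal period -/
theorem minimalPeriod_eq {φ : Perm D} {d : D} {L : ℕ} (hL : 0 < L) (h1 : (φ ^ L) d = d)
    (h2 : ∀ i, 0 < i → i < L → (φ ^ i) d ≠ d) : Function.minimalPeriod φ d = L := by
  have hp : Function.IsPeriodicPt φ L d := by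
    rw [Function.IsPeriodicPt, Function.IsFixedPt, iterate_eq_pow, h1]
  have h3 := hp.minimalPeriod_le hL
  have h4 := hp.minimalPeriod_pos hL
  rcases h3.lt_or_eq with h | h
  · exact absurd (pow_minimalPeriod φ d) (h2 _ h4 h)
  · exact h

theorem cycProd_eq {φ : Perm D} {d : D} {L : ℕ} (x : D → G)
    (h : Function.minimalPeriod φ d = L) :
    cycProd φ x d = ((List.range L).map (fun i => x ((φ ^ i) d))).prod := by
  rw [cycProd, h]

theorem prod_range_succ_shift (φ : Perm D) (x : D → G) (d : D) (n : ℕ) :
    x d * ((List.range n).map (fun i => x ((φ ^ i) (φ d)))).prod =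
      ((List.range n).map (fun i => x ((φ ^ i) d))).prod * x ((φ ^ n) d) := by
  induction n with
  | zero => simp
  | succ n ih =>
    rw [List.range_succ, List.map_append, List.prod_append, ← mul_assoc, ih, List.map_append,
      List.prod_append]
    simp only [List.map_cons, List.map_nil, List.prod_cons, List.prod_nil, mul_one]
    rw [pow_succ φ n]
    rfl

/-- shifting the base point conjugates the product -/
theorem cycProd_apply (φ : Perm D) (x : D → G) (d : D) :
    cycProd φ x (φ d) = (x d)⁻¹ * cycProd φ x d * x d := by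
  have h0 : Function.minimalPeriod φ (φ d) = Function.minimalPeriod φ d := by
    by_cases hd : d ∈ Function.periodicPts φ
    · exact Function.minimalPeriod_apply hd
    · have h1 : φ d ∉ Function.periodicPts φ := by
        rintro ⟨n, hn, hp⟩
        apply hd
        refine ⟨n, hn, ?_⟩
        rw [Function.IsPeriodicPt, Function.IsFixedPt, iterate_eq_pow] at hp ⊢
        have : φ ((φ ^ n) d) = φ d := by
          rw [← Perm.mul_apply, ← pow_succ', pow_succ, Perm.mul_apply]
          exact hp
        exact φ.injective this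
      rw [Function.minimalPeriod_eq_zero_of_notMem_periodicPts hd,
        Function.minimalPeriod_eq_zero_of_notMem_periodicPts h1]
  rw [cycProd, cycProd, h0]
  have h1 := prod_range_succ_shift φ x d (Function.minimalPeriod φ d)
  rw [pow_minimalPeriod] at h1
  rw [mul_assoc, ← h1]
  group

theorem cycProd_conj [Finite D] {φ : Perm D} (x : D → G) {d d' : D} (h : φ.SameCycle d d') :
    ∃ u : G, cycProd φ x d' = u⁻¹ * cycProd φ x d * u := by
  refine mem_of_sameCycle (S := {z | ∃ u : G, cycProd φ x z = u⁻¹ * cycProd φ x d * u})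
    ?_ ⟨1, by group⟩ h
  rintro z ⟨u, hu⟩
  exact ⟨u * x z, by rw [cycProd_apply, hu]; group⟩

theorem cycProd_eq_one_iff [Finite D] {φ : Perm D} (x : D → G) {d d' : D}
    (h : φ.SameCycle d d') : cycProd φ x d = 1 ↔ cycProd φ x d' = 1 := by
  obtain ⟨u, hu⟩ := cycProd_conj x h
  rw [hu]
  constructor
  · intro h; rw [h]; group
  · intro h
    have : cycProd φ x d = u * (u⁻¹ * cycProd φ x d * u) * u⁻¹ := by group
    rw [this, h]; group

theorem cycProd_mem_iff [Finite D] {φ : Perm D} (x : D → G) {d d' : D} {N : Subgroup G}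
    [hN : N.Normal] (h : φ.SameCycle d d') : cycProd φ x d ∈ N ↔ cycProd φ x d' ∈ N := by
  obtain ⟨u, hu⟩ := cycProd_conj x h
  rw [hu]
  constructor
  · intro h; simpa using hN.conj_mem _ h u⁻¹
  · intro h
    have : cycProd φ x d = u * (u⁻¹ * cycProd φ x d * u) * u⁻¹ := by group
    rw [this]
    exact hN.conj_mem _ h u

/-- two permutations which agree along an orbit have the same powers there -/
theorem pow_congr {φ φ' : Perm D} {d : D} {n : ℕ}
    (h : ∀ i < n, φ' ((φ ^ i) d) = φ ((φ ^ i) d)) : ∀ i ≤ n, (φ' ^ i) d = (φ ^ i) d := by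
  intro i
  induction i with
  | zero => intro _; rfl
  | succ i ih =>
    intro hi
    rw [pow_succ', pow_succ', Perm.mul_apply, Perm.mul_apply, ih (by omega), h i (by omega)]

theorem minimalPeriod_congr [Finite D] {φ φ' : Perm D} {d : D}
    (h : ∀ i, φ' ((φ ^ i) d) = φ ((φ ^ i) d)) :
    Function.minimalPeriod φ' d = Function.minimalPeriod φ d := by
  have hp : ∀ i, (φ' ^ i) d = (φ ^ i) d := fun i => pow_congr (n := i) (fun j _ => h j) i le_rfl
  apply minimalPeriod_eq (minimalPeriod_pos φ d)
  · rw [hp, pow_minimalPeriod]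
  · intro i h1 h2 h3
    rw [hp] at h3
    have : Function.IsPeriodicPt φ i d := by
      rw [Function.IsPeriodicPt, Function.IsFixedPt, iterate_eq_pow, h3]
    exact absurd (this.minimalPeriod_le h1) (by omega)

/-- the product along a cycle only depends on the cycle -/
theorem cycProd_congr [Finite D] {φ φ' : Perm D} {x x' : D → G} {d : D}
    (h : ∀ i, φ' ((φ ^ i) d) = φ ((φ ^ i) d)) (hx : ∀ i, x' ((φ ^ i) d) = x ((φ ^ i) d)) :
    cycProd φ' x' d = cycProd φ x d := by
  have hp : ∀ i, (φ' ^ i) d = (φ ^ i) d := fun i => pow_congr (n := i) (fun j _ => h j) i le_rfl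
  rw [cycProd, cycProd, minimalPeriod_congr h]
  congr 1
  apply List.map_congr_left
  intro i _
  rw [hp, hx]

theorem map_cycProd {G' : Type} [Group G'] (f : G →* G') (φ : Perm D) (x : D → G) (d : D) :
    f (cycProd φ x d) = cycProd φ (fun z => f (x z)) d := by
  rw [cycProd, cycProd, map_list_prod, List.map_map]
  rfl

/-- telescoping of the labels around a vertex -/
theorem prod_lab (σ : Perm D) (H : D → G) (d : D) (n : ℕ) :
    ((List.range n).map (fun i => lab σ H ((σ ^ (i + 1)) d))).prod =
      (H d)⁻¹ * H ((σ ^ n) d) := by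
  induction n with
  | zero => simp
  | succ n ih =>
    rw [List.range_succ, List.map_append, List.prod_append, ih]
    simp only [List.map_cons, List.map_nil, List.prod_cons, List.prod_nil, mul_one]
    have h1 : σ⁻¹ ((σ ^ (n + 1)) d) = (σ ^ n) d := by
      rw [pow_succ', Perm.mul_apply]; simp
    rw [lab, h1]
    group

end CycProd

/-! ## Relator faces -/

section Faces

variable {P : Type} [Group P] {D : Type} {R : List (Rel P)} {σ θ : Perm D} {h : D → P}
  {ty : D → Fin 3} {kind : D → Option (ℕ × Bool × ℕ)}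

theorem nxt_lt {L : ℕ} (hL : 0 < L) (s : Bool) (k : ℕ) : nxt L s k < L := by
  unfold nxt
  split_ifs <;> exact Nat.mod_lt _ hL

/-- position after `i` steps -/
def pos (L : ℕ) (s : Bool) (k i : ℕ) : ℕ := if s then (k + i) % L else (k + L * i - i) % L

theorem pos_zero {L k : ℕ} (s : Bool) (hk : k < L) : pos L s k 0 = k := by
  unfold pos
  cases s <;> simp [Nat.mod_eq_of_lt hk]

theorem nxt_pos {L : ℕ} (hL : 0 < L) (s : Bool) (k i : ℕ) :
    nxt L s (pos L s k i) = pos L s k (i + 1) := by
  unfold nxt pos
  cases s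
  · simp only [Bool.false_eq_true, if_false]
    have h1 : i ≤ L * i := Nat.le_mul_of_pos_left i hL
    have e1 : L * (i + 1) = L * i + L := by ring
    have e2 : (k + L * i - i) % L + L - 1 + (L * i) * 0 = (k + L * i - i) % L + (L - 1) := by omega
    have e3 : k + L * (i + 1) - (i + 1) = (k + L * i - i) + (L - 1) := by omega
    rw [e3, show (k + L * i - i) % L + L - 1 = (k + L * i - i) % L + (L - 1) by omega,
      Nat.mod_add_mod]
  · simp only [if_true]
    rw [Nat.mod_add_mod, add_assoc]

theorem word_length (r : Rel P) : r.word.length = r.g.length + 2 := by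
  simp [Rel.word, invW]

theorem word_length_pos (r : Rel P) : 0 < r.word.length := by rw [word_length]; omega

theorem IsPic.lt (hp : IsPic R σ θ h ty kind) {d : D} {j k : ℕ} {s : Bool} {r : Rel P}
    (hd : kind d = some (j, s, k)) (hr : R[j]? = some r) : k < r.word.length := by
  obtain ⟨r', hr', h1, -, -⟩ := hp.rel d j s k hd
  rw [hr] at hr'
  obtain rfl : r = r' := by simpa using hr'
  exact (List.getElem?_eq_some_iff.1 h1).1

theorem IsPic.kind_pow (hp : IsPic R σ θ h ty kind) {d : D} {j k : ℕ} {s : Bool} {r : Rel P}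
    (hd : kind d = some (j, s, k)) (hr : R[j]? = some r) (i : ℕ) :
    kind (((σ * θ) ^ i) d) = some (j, s, pos r.word.length s k i) := by
  induction i with
  | zero => rw [pos_zero s (hp.lt hd hr)]; simpa using hd
  | succ i ih =>
    obtain ⟨r', hr', -, h1, -⟩ := hp.rel _ _ _ _ ih
    rw [hr] at hr'
    obtain rfl : r = r' := by simpa using hr'
    rw [nxt_pos (word_length_pos r)] at h1
    rw [pow_succ', Perm.mul_apply]
    exact h1

theorem IsPic.pow_length (hp : IsPic R σ θ h ty kind) {d : D} {j k : ℕ} {s : Bool} {r : Rel P}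
    (hd : kind d = some (j, s, k)) (hr : R[j]? = some r) :
    ((σ * θ) ^ r.word.length) d = d := by
  obtain ⟨r', hr', -, -, h1⟩ := hp.rel _ _ _ _ hd
  rw [hr] at hr'
  obtain rfl : r = r' := by simpa using hr'
  exact h1

theorem IsPic.letter (hp : IsPic R σ θ h ty kind) {d : D} {j k : ℕ} {s : Bool} {r : Rel P}
    (hd : kind d = some (j, s, k)) (hr : R[j]? = some r) :
    r.word[k]? = some (ty d, if s then lab σ h d else (lab σ h d)⁻¹) := by
  obtain ⟨r', hr', h1, -, -⟩ := hp.rel _ _ _ _ hd
  rw [hr] at hr'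
  obtain rfl : r = r' := by simpa using hr'
  exact h1

theorem IsPic.exists_rel (hp : IsPic R σ θ h ty kind) {d : D} {j k : ℕ} {s : Bool}
    (hd : kind d = some (j, s, k)) : ∃ r, R[j]? = some r := by
  obtain ⟨r, hr, -⟩ := hp.rel _ _ _ _ hd
  exact ⟨r, hr⟩

theorem pos_inj {L k i : ℕ} {s : Bool} (hk : k < L) (hi : i < L) (h0 : pos L s k i = k) :
    i = 0 := by
  unfold pos at h0
  have hL : 0 < L := by omega
  cases s
  · simp only [Bool.false_eq_true, if_false] at h0
    have h1 : i ≤ L * i := Nat.le_mul_of_pos_left i hL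
    have h2 : (k + L * i - i) % L = k % L := by rw [h0, Nat.mod_eq_of_lt hk]
    have h3 : (k + L * i) % L = (k + i) % L := by
      have : k + L * i = (k + L * i - i) + i := by omega
      rw [this, Nat.add_mod, h2, ← Nat.add_mod]
    rw [Nat.add_mul_mod_self_left, Nat.mod_eq_of_lt hk] at h3
    by_cases h4 : k + i < L
    · rw [Nat.mod_eq_of_lt h4] at h3; omega
    · rw [Nat.mod_eq_sub_mod (by omega), Nat.mod_eq_of_lt (by omega)] at h3; omega
  · simp only [if_true] at h0
    by_cases h4 : k + i < L
    · rw [Nat.mod_eq_of_lt h4] at h0; omega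
    · rw [Nat.mod_eq_sub_mod (by omega), Nat.mod_eq_of_lt (by omega)] at h0; omega

/-- the exact period of a relator corner is the length of the relator -/
theorem IsPic.minimalPeriod (hp : IsPic R σ θ h ty kind) {d : D} {j k : ℕ} {s : Bool}
    {r : Rel P} (hd : kind d = some (j, s, k)) (hr : R[j]? = some r) :
    Function.minimalPeriod (σ * θ) d = r.word.length := by
  apply minimalPeriod_eq (word_length_pos r) (hp.pow_length hd hr)
  intro i h1 h2 h3
  have h4 := hp.kind_pow hd hr i
  rw [h3, hd] at h4
  have h5 : pos r.word.length s k i = k := by simpa using h4.symm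
  have := pos_inj (hp.lt hd hr) h2 h5
  omega

theorem IsPic.kind_ne_none_pow (hp : IsPic R σ θ h ty kind) {d : D} (hd : kind d ≠ none)
    (i : ℕ) : kind (((σ * θ) ^ i) d) ≠ none := by
  obtain ⟨⟨j, s, k⟩, hd⟩ := Option.ne_none_iff_exists'.1 hd
  obtain ⟨r, hr⟩ := hp.exists_rel hd
  rw [hp.kind_pow hd hr i]
  simp

theorem IsPic.kind_ne_none_iff (hp : IsPic R σ θ h ty kind) {d d' : D}
    (hs : (σ * θ).SameCycle d d') : kind d ≠ none ↔ kind d' ≠ none := by
  have key : ∀ z, kind z ≠ none ↔ kind ((σ * θ) z) ≠ none := by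
    intro z
    constructor
    · intro hz; simpa using hp.kind_ne_none_pow hz 1
    · intro hz
      obtain ⟨⟨j, s, k⟩, hz'⟩ := Option.ne_none_iff_exists'.1 hz
      obtain ⟨r, hr⟩ := hp.exists_rel hz'
      have h1 := hp.kind_ne_none_pow hz (r.word.length - 1)
      have h2 := hp.pow_length hz' hr
      have h3 : ((σ * θ) ^ (r.word.length - 1)) ((σ * θ) z) = z := by
        apply (σ * θ).injective
        rw [← Perm.mul_apply, ← pow_succ', Nat.sub_add_cancel (word_length_pos r)]
        exact h2
      rwa [h3] at h1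
  have hc : conn (σ * θ) 1 ≤ Setoid.comap (fun z => kind z ≠ none) ⊥ := by
    rw [conn_le_iff]
    refine ⟨fun z => ?_, fun z => ?_⟩
    · exact propext (key z)
    · exact rfl
  have := hc (conn_of_sameCycle_left hs)
  exact iff_of_eq this

theorem IsPic.kind_none_iff (hp : IsPic R σ θ h ty kind) {d d' : D}
    (hs : (σ * θ).SameCycle d d') : kind d = none ↔ kind d' = none :=
  not_iff_not.1 (hp.kind_ne_none_iff hs)

theorem IsPic.ty_sameCycle (hp : IsPic R σ θ h ty kind) {d d' : D} (hs : σ.SameCycle d d') :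
    ty d = ty d' := by
  have hc : conn σ 1 ≤ Setoid.comap ty ⊥ := by
    rw [conn_le_iff]
    refine ⟨fun z => ?_, fun z => rfl⟩
    exact (hp.tyσ z).symm
  exact hc (conn_of_sameCycle_left hs)

theorem IsPic.h_sameCycle (hp : IsPic R σ θ h ty kind) {d d' : D} (hs : θ.SameCycle d d') :
    h d = h d' := by
  have hc : conn θ 1 ≤ Setoid.comap h ⊥ := by
    rw [conn_le_iff]
    refine ⟨fun z => ?_, fun z => rfl⟩
    exact (hp.hθ z).symm
  exact hc (conn_of_sameCycle_left hs)

theorem IsPic.ty_inv (hp : IsPic R σ θ h ty kind) (d : D) : ty (σ⁻¹ d) = ty d :=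
  hp.ty_sameCycle ⟨1, by simp⟩

/-- `elt` is a `lab` for the potential `d ↦ emb (ty d) (h d)` -/
theorem IsPic.elt_eq_lab (hp : IsPic R σ θ h ty kind) (d : D) :
    elt σ h ty d = lab σ (fun z => emb (ty z) (h z)) d := by
  simp only [elt, lab, map_mul, map_inv, hp.ty_inv]

end Faces

/-! ## Words -/

section Words

variable {P : Type} [Group P]

@[simp] theorem ev_nil : ev ([] : List (Fin 3 × P)) = 1 := rfl

@[simp] theorem ev_cons (x : Fin 3 × P) (X : List (Fin 3 × P)) :
    ev (x :: X) = emb x.1 x.2 * ev X := by simp [ev]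

@[simp] theorem ev_append (X Y : List (Fin 3 × P)) : ev (X ++ Y) = ev X * ev Y := by
  simp [ev]

theorem invW_append (X Y : List (Fin 3 × P)) : invW (X ++ Y) = invW Y ++ invW X := by
  simp [invW]

theorem invW_cons (x : Fin 3 × P) (X : List (Fin 3 × P)) :
    invW (x :: X) = invW X ++ [(x.1, x.2⁻¹)] := by simp [invW]

@[simp] theorem ev_invW (X : List (Fin 3 × P)) : ev (invW X) = (ev X)⁻¹ := by
  induction X with
  | nil => simp [invW]
  | cons x X ih => rw [invW_cons, ev_append, ih]; simp

@[simp] theorem length_invW (X : List (Fin 3 × P)) : (invW X).length = X.length := by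
  simp [invW]

@[simp] theorem invW_invW (X : List (Fin 3 × P)) : invW (invW X) = X := by
  simp [invW, Function.comp_def]

@[simp] theorem fold_nil : fold ([] : List (Fin 3 × P)) = 1 := rfl

@[simp] theorem fold_cons (x : Fin 3 × P) (X : List (Fin 3 × P)) :
    fold (x :: X) = x.2 * fold X := by simp [fold]

@[simp] theorem fold_append (X Y : List (Fin 3 × P)) : fold (X ++ Y) = fold X * fold Y := by
  simp [fold]

@[simp] theorem fold_invW (X : List (Fin 3 × P)) : fold (invW X) = (fold X)⁻¹ := by
  induction X with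
  | nil => simp [invW]
  | cons x X ih => rw [invW_cons, fold_append, ih]; simp

theorem ev_word (r : Rel P) : ev r.word = emb r.l r.a * emb r.m r.b * (ev r.g)⁻¹ := by
  simp [Rel.word, mul_assoc]

theorem fold_word (r : Rel P) : fold r.word = r.a * r.b * (fold r.g)⁻¹ := by
  simp [Rel.word, mul_assoc]

/-- the folding homomorphism -/
def foldHom (P : Type) [Group P] : FP P →* P := Monoid.CoprodI.lift fun _ => MonoidHom.id P

@[simp] theorem foldHom_emb (i : Fin 3) (x : P) : foldHom P (emb i x) = x := by
  simp [foldHom, emb]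

@[simp] theorem foldHom_ev (X : List (Fin 3 × P)) : foldHom P (ev X) = fold X := by
  induction X with
  | nil => simp
  | cons x X ih => simp [ih]

instance NR_normal (R : List (Rel P)) : (NR R).Normal := Subgroup.normalClosure_normal

theorem ev_word_mem {R : List (Rel P)} {r : Rel P} (hr : r ∈ R) : ev r.word ∈ NR R :=
  Subgroup.subset_normalClosure ⟨r, hr, rfl⟩

theorem foldHom_of_mem {R : List (Rel P)} (hF : Fold R) {w : FP P} (hw : w ∈ NR R) :
    foldHom P w = 1 := by
  have : NR R ≤ (foldHom P).ker := by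
    apply Subgroup.normalClosure_le_normal
    rintro w ⟨r, hr, rfl⟩
    change _ = _
    rw [foldHom_ev, hF r hr]
  exact this hw

theorem NR_mono {R R' : List (Rel P)} (h : ∀ r ∈ R, r ∈ R') : NR R ≤ NR R' := by
  apply Subgroup.normalClosure_mono
  rintro w ⟨r, hr, rfl⟩
  exact ⟨r, h r hr, rfl⟩

theorem Lets_finite (R : List (Rel P)) (X : List (Fin 3 × P)) : (Lets R X).Finite := by
  have : Lets R X ⊆ (⋃ r ∈ {r | r ∈ R}, ⋃ y ∈ {y | y ∈ r.word}, {y.2, y.2⁻¹}) ∪
      ⋃ y ∈ {y | y ∈ X}, {y.2, y.2⁻¹} := by
    rintro x (⟨r, hr, y, hy, hx⟩ | ⟨y, hy, hx⟩)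
    · left
      simp only [Set.mem_setOf_eq, Set.mem_iUnion, Set.mem_insert_iff, Set.mem_singleton_iff]
      exact ⟨r, hr, y, hy, hx⟩
    · right
      simp only [Set.mem_setOf_eq, Set.mem_iUnion, Set.mem_insert_iff, Set.mem_singleton_iff]
      exact ⟨y, hy, hx⟩
  refine Set.Finite.subset ?_ this
  refine Set.Finite.union ?_ ?_
  · refine Set.Finite.biUnion R.finite_toSet fun r _ => ?_
    exact Set.Finite.biUnion r.word.finite_toSet fun y _ => Set.toFinite _
  · exact Set.Finite.biUnion X.finite_toSet fun y _ => Set.toFinite _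

theorem prodsLE_finite {L : Set P} (hL : L.Finite) (s : ℕ) : (prodsLE L s).Finite := by
  induction s with
  | zero =>
    refine (Set.finite_singleton (1 : P)).subset ?_
    rintro u ⟨l, h1, -, rfl⟩
    have : l = [] := List.length_eq_zero_iff.1 (by omega)
    simp [this]
  | succ s ih =>
    refine ((Set.finite_singleton (1 : P)).union (hL.image2 (fun a b => a * b) ih)).subset ?_
    rintro u ⟨l, h1, h2, rfl⟩
    cases l with
    | nil => left; simp
    | cons a l =>
      right
      refine ⟨a, h2 a (by simp), l.prod, ⟨l, ?_, ?_, rfl⟩, by simp⟩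
      · simpa using h1
      · intro x hx; exact h2 x (by simp [hx])

theorem Lets_inv {R : List (Rel P)} {X : List (Fin 3 × P)} {x : P} (h : x ∈ Lets R X) :
    x⁻¹ ∈ Lets R X := by
  rcases h with ⟨r, hr, y, hy, hx⟩ | ⟨y, hy, hx⟩
  · left
    refine ⟨r, hr, y, hy, ?_⟩
    rcases hx with rfl | rfl <;> simp
  · right
    refine ⟨y, hy, ?_⟩
    rcases hx with rfl | rfl <;> simp

end Words

/-! ## Degrees -/

section Deg

variable {P : Type} [Group P] (τ : P →* Multiplicative ℤ)

@[simp] theorem deg_one : deg τ 1 = 0 := by simp [deg]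

@[simp] theorem deg_inv (x : P) : deg τ x⁻¹ = deg τ x := by simp [deg]

theorem deg_mul_le (x y : P) : deg τ (x * y) ≤ deg τ x + deg τ y := by
  simp only [deg, map_mul, toAdd_mul]
  exact Int.natAbs_add_le _ _

theorem deg_prod_le {M : ℕ} (l : List P) (h : ∀ x ∈ l, deg τ x ≤ M) :
    deg τ l.prod ≤ l.length * M := by
  induction l with
  | nil => simp
  | cons a l ih =>
    rw [List.prod_cons, List.length_cons]
    have h1 := deg_mul_le τ a l.prod
    have h2 := ih (fun x hx => h x (by simp [hx]))
    have h3 := h a (by simp)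
    nlinarith

end Deg

end Pool.Agent.H7.TF
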