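import Mathlib

/-!
# MP_7a929c_al : definitions

Planar pictures over a free product of three copies of a group `P`, coded by two permutations
`σ` (rotation at the secondary vertices) and `θ` (rotation at the primary vertices) of a finite set
`D` of darts; the faces are the cycles of `σ * θ`.
-/

set_option autoImplicit false

namespace Pool.Agent.H7.TF

open Equiv

/-! ## Permutations -/

section PermDefs

variable {D : Type}

/-- number of cycles of a permutation, fixed points included -/
noncomputable def nc (α : Perm D) : ℕ := Nat.card (Quotient (Perm.SameCycle.setoid α))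

/-- the equivalence relation generated by two permutations -/
def conn (α β : Perm D) : Setoid D := Perm.SameCycle.setoid α ⊔ Perm.SameCycle.setoid β

/-- number of connected components -/
noncomputable def comps (α β : Perm D) : ℕ := Nat.card (Quotient (conn α β))

/-- genus zero: all components are spheres -/
def Planar (α β : Perm D) : Prop :=
  nc α + nc β + nc (α * β) = Nat.card D + 2 * comps α β

/-- number of cycles of `α` that meet `O` -/
noncomputable def mt (α : Perm D) (O : Set D) : ℕ :=
  Nat.card {c : Quotient (Perm.SameCycle.setoid α) // ∃ x ∈ O, Quotient.mk _ x = c}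

/-- the product of the values of `x` along the cycle of `φ` starting at `d` -/
noncomputable def cycProd {G : Type} [Group G] (φ : Perm D) (x : D → G) (d : D) : G :=
  ((List.range (Function.minimalPeriod φ d)).map (fun i => x ((φ ^ i) d))).prod

/-- the label of a corner: `H` is the potential of the edges -/
def lab {G : Type} [Group G] (σ : Perm D) (H : D → G) (d : D) : G := (H (σ⁻¹ d))⁻¹ * H d

/-- `ω` cuts the cycles of `σ` at the points of `O`: every cycle of `ω * σ` contains at most one
element of `O`. -/
structure Cut (σ θ ω : Perm D) (O : Set D) : Prop where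
  off : ∀ z, z ∉ O → ω z = z
  on : ∀ z, z ∈ O → ω z ∈ O
  same : ∀ z, σ.SameCycle (ω z) z
  planar : Planar (ω * σ) θ
  uniq : ∀ x ∈ O, ∀ y ∈ O, (ω * σ).SameCycle x y → x = y

end PermDefs

/-! ## Words -/

section Words

variable {P : Type} [Group P]

/-- the free product of three copies of `P` -/
abbrev FP (P : Type) [Group P] : Type := Monoid.CoprodI (fun _ : Fin 3 => P)

/-- the embedding of `P` as the `i`-th factor -/
def emb (i : Fin 3) : P →* FP P := Monoid.CoprodI.of (M := fun _ : Fin 3 => P) (i := i)

/-- evaluation of a word in the free product -/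
def ev (X : List (Fin 3 × P)) : FP P := (X.map fun x => emb x.1 x.2).prod

/-- the inverse word -/
def invW (X : List (Fin 3 × P)) : List (Fin 3 × P) := (X.map fun x => (x.1, x.2⁻¹)).reverse

/-- reduced word -/
def Red (X : List (Fin 3 × P)) : Prop :=
  (∀ x ∈ X, x.2 ≠ 1) ∧ X.IsChain (fun x y => x.1 ≠ y.1)

/-- the product in `P` (the three copies of `P` are identified) -/
def fold (X : List (Fin 3 × P)) : P := (X.map Prod.snd).prod

/-- a relator `a b g⁻¹`, with `a` in the copy `l` and `b` in the copy `m` of `P` -/
structure Rel (P : Type) where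
  l : Fin 3
  m : Fin 3
  a : P
  b : P
  g : List (Fin 3 × P)

/-- the word `a b g⁻¹` -/
def Rel.word (r : Rel P) : List (Fin 3 × P) := (r.l, r.a) :: (r.m, r.b) :: invW r.g

/-- the normal closure of the relators -/
def NR (R : List (Rel P)) : Subgroup (FP P) :=
  Subgroup.normalClosure {w | ∃ r ∈ R, w = ev r.word}

/-- all relators are killed by the folding map -/
def Fold (R : List (Rel P)) : Prop := ∀ r ∈ R, fold r.word = 1

end Words

/-! ## Pictures -/

section Pictures

variable {P : Type} [Group P] {D : Type}

/-- next position on a face of length `L` -/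
def nxt (L : ℕ) (s : Bool) (k : ℕ) : ℕ := if s then (k + 1) % L else (k + L - 1) % L

/-- A planar picture over the relators `R`. Darts = edges = corners at secondary vertices.
`σ` = rotation at secondary vertices, `θ` = rotation at primary vertices, `σ * θ` = faces,
`h` = potential of the primary vertices, `ty` = type of the secondary vertices,
`kind d = some (j, s, k)`: the corner `d` is the `k`-th letter of a face reading the relator number
`j` (`s = true`) or its inverse (`s = false`); `kind d = none`: the corner `d` belongs to a hole. -/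
structure IsPic (R : List (Rel P)) (σ θ : Perm D) (h : D → P) (ty : D → Fin 3)
    (kind : D → Option (ℕ × Bool × ℕ)) : Prop where
  planar : Planar σ θ
  hθ : ∀ d, h (θ d) = h d
  tyσ : ∀ d, ty (σ d) = ty d
  rel : ∀ d j s k, kind d = some (j, s, k) → ∃ r, R[j]? = some r ∧
    r.word[k]? = some (ty d, if s then lab σ h d else (lab σ h d)⁻¹) ∧
    kind (σ (θ d)) = some (j, s, nxt r.word.length s k) ∧
    ((σ * θ) ^ r.word.length) d = d

/-- strongly reduced: no mirror pair of corners at the same vertex facing parallel edges -/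
def Reduced (σ : Perm D) (h : D → P) (kind : D → Option (ℕ × Bool × ℕ)) : Prop :=
  ∀ d d' j s k, σ.SameCycle d d' → kind d = some (j, s, k) → kind d' = some (j, !s, k) →
    h d ≠ h (σ⁻¹ d')

/-- number of hole corners in the component of `x` -/
noncomputable def holes (σ θ : Perm D) (kind : D → Option (ℕ × Bool × ℕ)) (x : D) : ℕ :=
  Nat.card {d // conn σ θ x d ∧ kind d = none}

/-- number of relator corners at boundary vertices in the component of `x` -/
noncomputable def bdry (σ θ : Perm D) (kind : D → Option (ℕ × Bool × ℕ)) (x : D) : ℕ :=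
  Nat.card {d // conn σ θ x d ∧ kind d ≠ none ∧ ∃ d', σ.SameCycle d d' ∧ kind d' = none}

/-- the inductive inequality -/
def QB (R : List (Rel P)) (C : ℕ) : Prop :=
  ∀ (D : Type) [Fintype D] [DecidableEq D] (σ θ : Perm D) (h : D → P) (ty : D → Fin 3)
    (kind : D → Option (ℕ × Bool × ℕ)), IsPic R σ θ h ty kind → Reduced σ h kind →
    ∀ x, bdry σ θ kind x ≤ C * holes σ θ kind x

/-- the component of `d0` has exactly one hole; read from `d0` it is the word `X` -/
structure HoleAt (σ θ : Perm D) (h : D → P) (ty : D → Fin 3)
    (kind : D → Option (ℕ × Bool × ℕ)) (d0 : D) (X : List (Fin 3 × P)) : Prop where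
  ne : X ≠ []
  per : ((σ * θ) ^ X.length) d0 = d0
  mper : ∀ i, 0 < i → i < X.length → ((σ * θ) ^ i) d0 ≠ d0
  rd : ∀ i, i < X.length →
    X[i]? = some (ty (((σ * θ) ^ i) d0), lab σ h (((σ * θ) ^ i) d0))
  hole : kind d0 = none
  only : ∀ d, conn σ θ d0 d → kind d = none → (σ * θ).SameCycle d0 d

/-- the word `X` bounds a picture over `R` -/
def Bd (R : List (Rel P)) (X : List (Fin 3 × P)) : Prop :=
  ∃ (D : Type) (_ : Fintype D) (_ : DecidableEq D) (σ θ : Perm D) (h : D → P) (ty : D → Fin 3)
    (kind : D → Option (ℕ × Bool × ℕ)) (d0 : D),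
    IsPic R σ θ h ty kind ∧ HoleAt σ θ h ty kind d0 X

/-- the element of the free product given by a corner -/
def elt (σ : Perm D) (h : D → P) (ty : D → Fin 3) (d : D) : FP P := emb (ty d) (lab σ h d)

end Pictures

/-! ## Genericity -/

section Generic

variable {P : Type} [Group P]

/-- products of at most `s` elements of `L` -/
def prodsLE (L : Set P) (s : ℕ) : Set P :=
  {u | ∃ l : List P, l.length ≤ s ∧ (∀ x ∈ l, x ∈ L) ∧ u = l.prod}

/-- the absolute value of the degree -/
def deg (τ : P →* Multiplicative ℤ) (x : P) : ℕ := (Multiplicative.toAdd (τ x)).natAbs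

/-- `x` is generic with respect to the set `S` -/
def Gen (τ : P →* Multiplicative ℤ) (S : Set P) (x : P) : Prop :=
  (∀ u ∈ S, 3 * deg τ u < deg τ x) ∧
    ∀ u ∈ S, u ≠ 1 → ∀ v ∈ S, x * u * x⁻¹ * v ≠ 1 ∧ x⁻¹ * u * x * v ≠ 1

/-- all letters of the relators and their inverses, and of `X` and their inverses -/
def Lets (R : List (Rel P)) (X : List (Fin 3 × P)) : Set P :=
  {x | (∃ r ∈ R, ∃ y ∈ r.word, x = y.2 ∨ x = y.2⁻¹) ∨ ∃ y ∈ X, x = y.2 ∨ x = y.2⁻¹}

/-- the group-theoretic facts about `N = NR R` needed at the next level, for the relator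
`a b g⁻¹`, `a` in copy `l`, `b` in copy `m` -/
structure Facts (R : List (Rel P)) (l m : Fin 3) (g : List (Fin 3 × P)) : Prop where
  lm : l ≠ m
  gne : g ≠ []
  /-- `g` is not in `N P_l P_m` -/
  out : ∀ p q : P, emb l p * ev g * emb m q ∉ NR R
  /-- `P_l ∩ P_m = 1` modulo `N` -/
  int1 : ∀ u v : P, emb l u * emb m v ∈ NR R → u = 1 ∧ v = 1
  /-- `P_l ∩ g P_m g⁻¹ = 1` modulo `N` -/
  int2 : ∀ u v : P, emb l u * ev g * emb m v * (ev g)⁻¹ ∈ NR R → u = 1 ∧ v = 1

end Generic

end Pool.Agent.H7.TF
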