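import Pool.Agent.H7.TF.Targets
import Pool.Agent.H7.TF.Basic

/-! # MP_7a929c_al : basic facts on the context of the inductive step -/

set_option autoImplicit false

namespace Pool.Agent.H7.TF

open Equiv

section

variable {P : Type} [Group P] (c : Ctx P)

theorem Ctx.getElem_top : (c.R ++ [⟨c.l, c.m, c.a, c.b, c.g⟩])[c.R.length]? =
    some ⟨c.l, c.m, c.a, c.b, c.g⟩ := by
  rw [List.getElem?_append_right le_rfl]; simp

/-- description of the output corners -/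
theorem Ctx.out_info {d : c.D} (hd : d ∈ c.O) :
    ∃ s : Bool, (c.kind d = some (c.R.length, s, 0) ∧ c.ty d = c.l ∧
        lab c.σ c.h d = if s then c.a else c.a⁻¹) ∨
      (c.kind d = some (c.R.length, s, 1) ∧ c.ty d = c.m ∧
        lab c.σ c.h d = if s then c.b else c.b⁻¹) := by
  obtain ⟨s, hs | hs⟩ := hd
  · refine ⟨s, Or.inl ⟨hs, ?_⟩⟩
    have := c.pic.letter hs c.getElem_top
    simp only [Rel.word, List.getElem?_cons_zero, Option.some.injEq, Prod.mk.injEq] at this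
    refine ⟨this.1.symm, ?_⟩
    rcases s with _ | _
    · simp only [Bool.false_eq_true, if_false] at this ⊢
      rw [this.2, inv_inv]
    · simp only [if_true] at this ⊢
      exact this.2.symm
  · refine ⟨s, Or.inr ⟨hs, ?_⟩⟩
    have := c.pic.letter hs c.getElem_top
    simp only [Rel.word, List.getElem?_cons_succ, List.getElem?_cons_zero, Option.some.injEq,
      Prod.mk.injEq] at this
    refine ⟨this.1.symm, ?_⟩
    rcases s with _ | _
    · simp only [Bool.false_eq_true, if_false] at this ⊢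
      rw [this.2, inv_inv]
    · simp only [if_true] at this ⊢
      exact this.2.symm

theorem Ctx.inv_mem {d : c.D} (hd : d ∈ c.O) : c.ω⁻¹ d ∈ c.O :=
  inv_mem_of_mapsTo (fun z hz => c.cut.on z hz) hd

theorem Ctx.inv_pow_mem {d : c.D} (hd : d ∈ c.O) (i : ℕ) : ((c.ω⁻¹) ^ i) d ∈ c.O := by
  induction i with
  | zero => exact hd
  | succ i ih => rw [pow_succ', Perm.mul_apply]; exact c.inv_mem ih

theorem Ctx.same_inv (d : c.D) : c.σ.SameCycle d (c.ω⁻¹ d) := by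
  have := c.cut.same (c.ω⁻¹ d)
  rwa [show c.ω (c.ω⁻¹ d) = d by simp] at this

theorem Ctx.same_inv_pow (d : c.D) (i : ℕ) : c.σ.SameCycle d (((c.ω⁻¹) ^ i) d) := by
  induction i with
  | zero => exact Perm.SameCycle.refl _ _
  | succ i ih => rw [pow_succ', Perm.mul_apply]; exact ih.trans (c.same_inv _)

/-- the product along the segment of `d` -/
def Ctx.W (d : c.D) : P := (c.h d)⁻¹ * c.h (c.σ⁻¹ (c.ω⁻¹ d))

/-- the segments of the cut, from A8 -/
theorem Ctx.seg_info (hA : T_A8) {d : c.D} (hd : d ∈ c.O) :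
    seg c.σ c.ω d + 1 = Function.minimalPeriod (c.ω * c.σ) d ∧
    (∀ i, 1 ≤ i → i ≤ seg c.σ c.ω d → (c.σ ^ i) d ∉ c.O ∧
      ((c.ω * c.σ) ^ i) d = (c.σ ^ i) d) ∧
    (c.σ ^ (seg c.σ c.ω d + 1)) d = c.ω⁻¹ d := by
  obtain ⟨n, h1, h2, h3, h4⟩ := hA c.D c.σ c.θ c.ω c.O c.cut d hd
  have hn : seg c.σ c.ω d = n := by rw [seg, ← h1]; simp
  rw [hn]
  refine ⟨h1, h2, ?_⟩
  conv_rhs => rw [← h4]
  simp

theorem Ctx.seg_prod (hA : T_A8) {d : c.D} (hd : d ∈ c.O) :
    ((List.range (seg c.σ c.ω d)).map (fun i => lab c.σ c.h ((c.σ ^ (i + 1)) d))).prod =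
      c.W d := by
  obtain ⟨-, -, h3⟩ := c.seg_info hA hd
  rw [prod_lab, Ctx.W, ← h3, pow_succ']
  simp

theorem Ctx.W_mem (hA : T_A8) {d : c.D} (hd : d ∈ c.O)
    (hl : ∀ z, c.σ.SameCycle d z → c.kind z = none → lab c.σ c.h z ∈ c.Lb)
    (hs : seg c.σ c.ω d ≤ c.s) : c.W d ∈ prodsLE c.Lb c.s := by
  obtain ⟨h1, h2, h3⟩ := c.seg_info hA hd
  refine ⟨_, ?_, ?_, (c.seg_prod hA hd).symm⟩
  · simpa using hs
  · intro x hx
    simp only [List.mem_map, List.mem_range] at hx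
    obtain ⟨i, hi, rfl⟩ := hx
    have h4 := (h2 (i + 1) (by omega) (by omega)).1
    by_cases h5 : c.kind ((c.σ ^ (i + 1)) d) = none
    · exact hl _ ⟨((i + 1 : ℕ) : ℤ), by rw [zpow_natCast]⟩ h5
    · exact c.lbl _ h5 h4

theorem deg_pos_of_gen {τ : P →* Multiplicative ℤ} {S : Set P} {x : P} (hg : Gen τ S x)
    (h1 : (1 : P) ∈ S) : 0 < deg τ x := by
  have := hg.1 1 h1
  simpa using this

theorem one_mem_prodsLE (L : Set P) (s : ℕ) : (1 : P) ∈ prodsLE L s :=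
  ⟨[], by simp, by simp, by simp⟩

theorem Ctx.lab_W (d : c.D) : lab c.σ c.h d * c.W d =
    (c.h (c.σ⁻¹ d))⁻¹ * c.h (c.σ⁻¹ (c.ω⁻¹ d)) := by
  rw [lab, Ctx.W]; group

theorem zabs {a b : ℤ} : (a + b).natAbs ≤ a.natAbs + b.natAbs := Int.natAbs_add_le a b

/-- all output corners of one vertex are of the same kind -/
theorem Ctx.out_uniform {d : c.D} (hd : d ∈ c.O) :
    ∃ (x : P) (κ : ℕ), Gen c.τ (prodsLE c.Lb c.s) x ∧ ∀ z ∈ c.O, c.σ.SameCycle d z →
      ∃ s : Bool, c.kind z = some (c.R.length, s, κ) ∧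
        lab c.σ c.h z = if s then x else x⁻¹ := by
  obtain ⟨s, hs | hs⟩ := c.out_info hd
  · refine ⟨c.a, 0, c.ga, ?_⟩
    intro z hz hdz
    obtain ⟨s', hs' | hs'⟩ := c.out_info hz
    · exact ⟨s', hs'.1, hs'.2.2⟩
    · exfalso
      have := c.pic.ty_sameCycle hdz
      rw [hs.2.1, hs'.2.1] at this
      exact c.facts.lm this
  · refine ⟨c.b, 1, c.gb, ?_⟩
    intro z hz hdz
    obtain ⟨s', hs' | hs'⟩ := c.out_info hz
    · exfalso
      have := c.pic.ty_sameCycle hdz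
      rw [hs.2.1, hs'.2.1] at this
      exact c.facts.lm this.symm
    · exact ⟨s', hs'.1, hs'.2.2⟩

end

end Pool.Agent.H7.TF
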