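import Pool.Agent.H7.TF.Targets
import Pool.Agent.H7.TF.CtxBasic

set_option autoImplicit false

namespace Pool.Agent.H7.TF

open Equiv

theorem C2 (hA : T_A8) : T_C2 := by
  intro P _ c d hd hl k hk1 hk3 hk
  by_contra hcon
  push Not at hcon
  obtain ⟨x, κ, hgen, hun⟩ := c.out_uniform hd
  set S := prodsLE c.Lb c.s with hS
  -- segments
  have hW : ∀ i < k, c.W (((c.ω⁻¹) ^ i) d) ∈ S := by
    intro i hi
    apply c.W_mem hA (c.inv_pow_mem hd i) _ (hcon i hi)
    intro z hz hz2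
    exact hl z ((c.same_inv_pow d i).trans hz) hz2
  have h1S : (1 : P) ∈ S := one_mem_prodsLE _ _
  have hx0 := deg_pos_of_gen hgen h1S
  have hdeg := hgen.1
  have htau : ∀ z : P, deg c.τ z = (Multiplicative.toAdd (c.τ z)).natAbs := fun z => rfl
  obtain ⟨s0, hk0, hl0⟩ := hun d hd (Perm.SameCycle.refl _ _)
  have hlw0 := c.lab_W d
  interval_cases k
  · -- k = 1
    have h1 : c.ω⁻¹ d = d := by simpa using hk
    rw [h1, inv_mul_cancel] at hlw0
    have hw := hW 0 (by norm_num)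
    rw [pow_zero, Perm.one_apply] at hw
    have h2 : deg c.τ (lab c.σ c.h d) = deg c.τ (c.W d) := by
      rw [eq_inv_of_mul_eq_one_left hlw0, deg_inv]
    have h3 : deg c.τ (lab c.σ c.h d) = deg c.τ x := by
      rw [hl0]; split_ifs <;> simp
    have h4 := hdeg _ hw
    omega
  · -- k = 2
    have h1 : c.ω⁻¹ (c.ω⁻¹ d) = d := by simpa [pow_succ] using hk
    obtain ⟨s1, hk1, hl1⟩ := hun (c.ω⁻¹ d) (c.inv_mem hd) (c.same_inv d)
    have hlw1 := c.lab_W (c.ω⁻¹ d)
    rw [h1] at hlw1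
    have hw0 := hW 0 (by norm_num)
    rw [pow_zero, Perm.one_apply] at hw0
    have hw1 := hW 1 (by norm_num)
    rw [pow_one] at hw1
    have hprod : lab c.σ c.h d * c.W d * (lab c.σ c.h (c.ω⁻¹ d) * c.W (c.ω⁻¹ d)) = 1 := by
      rw [hlw0, hlw1]; group
    have hd0 := hdeg _ hw0
    have hd1 := hdeg _ hw1
    by_cases hss : s0 = s1
    · -- equal signs
      have := congrArg (fun z => Multiplicative.toAdd (c.τ z)) hprod
      rw [hl0, hl1, hss] at this
      rw [htau] at hd0 hd1 hx0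
      rw [htau x] at hd0 hd1
      clear hlw0 hlw1 hprod hcon hW
      generalize c.W d = w0 at *
      generalize c.W (c.ω⁻¹ d) = w1 at *
      rcases s1 with _ | _
      · simp at this
        omega
      · simp at this
        omega
    · -- opposite signs
      have hss' : s1 = !s0 := by
        cases s0 <;> cases s1 <;> simp_all
      have hw1' : c.W d = 1 := by
        by_contra hne
        have := hgen.2 _ hw0 hne _ hw1
        rw [hl0, hl1, hss'] at hprod
        rcases s0 with _ | _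
        · simp only [Bool.false_eq_true, if_false, Bool.not_false, if_true] at hprod
          exact this.2 (by rw [← hprod]; group)
        · simp only [if_true, Bool.not_true, Bool.false_eq_true, if_false] at hprod
          exact this.1 (by rw [← hprod]; group)
      rw [hss'] at hk1
      refine c.red d (c.ω⁻¹ d) _ _ _ (c.same_inv d) hk0 hk1 ?_
      have : c.W d = (c.h d)⁻¹ * c.h (c.σ⁻¹ (c.ω⁻¹ d)) := rfl
      rw [hw1'] at this
      exact (inv_mul_eq_one.1 this.symm)
  · -- k = 3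
    have h1 : c.ω⁻¹ (c.ω⁻¹ (c.ω⁻¹ d)) = d := by simpa [pow_succ] using hk
    obtain ⟨s1, hk1, hl1⟩ := hun (c.ω⁻¹ d) (c.inv_mem hd) (c.same_inv d)
    obtain ⟨s2, hk2, hl2⟩ := hun (c.ω⁻¹ (c.ω⁻¹ d)) (c.inv_mem (c.inv_mem hd))
      ((c.same_inv d).trans (c.same_inv _))
    have hlw1 := c.lab_W (c.ω⁻¹ d)
    have hlw2 := c.lab_W (c.ω⁻¹ (c.ω⁻¹ d))
    rw [h1] at hlw2
    have hw0 := hW 0 (by norm_num)
    rw [pow_zero, Perm.one_apply] at hw0
    have hw1 := hW 1 (by norm_num)
    rw [pow_one] at hw1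
    have hw2 := hW 2 (by norm_num)
    rw [pow_two, Perm.mul_apply] at hw2
    have hprod : lab c.σ c.h d * c.W d * (lab c.σ c.h (c.ω⁻¹ d) * c.W (c.ω⁻¹ d)) *
        (lab c.σ c.h (c.ω⁻¹ (c.ω⁻¹ d)) * c.W (c.ω⁻¹ (c.ω⁻¹ d))) = 1 := by
      rw [hlw0, hlw1, hlw2]; group
    have hd0 := hdeg _ hw0
    have hd1 := hdeg _ hw1
    have hd2 := hdeg _ hw2
    have := congrArg (fun z => Multiplicative.toAdd (c.τ z)) hprod
    rw [hl0, hl1, hl2] at this
    rw [htau] at hd0 hd1 hd2 hx0
    rw [htau x] at hd0 hd1 hd2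
    clear hlw0 hlw1 hlw2 hprod hcon hW
    generalize c.W d = w0 at *
    generalize c.W (c.ω⁻¹ (c.ω⁻¹ d)) = w2 at *
    generalize c.W (c.ω⁻¹ d) = w1 at *
    rcases s0 with _ | _ <;> rcases s1 with _ | _ <;> rcases s2 with _ | _ <;>
      simp at this <;> omega

end Pool.Agent.H7.TF
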