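import Pool.Agent.H7.TF.Targets

/-! # MP_7a929c_al : the last step -/

set_option autoImplicit false
open Pointwise

namespace Pool.Agent.H7.TF

theorem final
    (h : ∃ (G : Type) (_ : Group G) (A : Fin 3 → Subgroup G),
      (∀ i j, i ≠ j → ∀ x : G, ∃ y ∈ A i, ∃ z ∈ A j, x = y * z) ∧
      (∀ i, IsSolvable (A i) ∧ ∀ K : Subgroup (A i), K.FG) ∧
      ∀ H : Subgroup G, H.index ≠ 0 → ¬ IsSolvable H) :
    ¬ (∀ (G : Type) [Group G] (A B C : Subgroup G),
      (A : Set G) * (B : Set G) = Set.univ →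
      (A : Set G) * (C : Set G) = Set.univ →
      (B : Set G) * (C : Set G) = Set.univ →
      (∃ H : Subgroup A, H.index ≠ 0 ∧ IsSolvable H ∧ ∀ K : Subgroup H, K.FG) →
      (∃ H : Subgroup B, H.index ≠ 0 ∧ IsSolvable H ∧ ∀ K : Subgroup H, K.FG) →
      (∃ H : Subgroup C, H.index ≠ 0 ∧ IsSolvable H ∧ ∀ K : Subgroup H, K.FG) →
      (∃ H : Subgroup G, H.index ≠ 0 ∧ IsSolvable H ∧ ∀ K : Subgroup H, K.FG)) := by
  obtain ⟨G, hG, A, h1, h2, h3⟩ := h
  intro hall
  have hprod : ∀ i j, i ≠ j → ((A i : Set G) * (A j : Set G) = Set.univ) := by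
    intro i j hij
    ext x
    simp only [Set.mem_univ, iff_true]
    obtain ⟨y, hy, z, hz, rfl⟩ := h1 i j hij x
    exact Set.mul_mem_mul hy hz
  have hpoly : ∀ i, ∃ H : Subgroup (A i), H.index ≠ 0 ∧ IsSolvable H ∧
      ∀ K : Subgroup H, K.FG := by
    intro i
    obtain ⟨hs, hf⟩ := h2 i
    haveI : Group.IsSolvable (A i) := hs
    refine ⟨⊤, by simp, (inferInstance : Group.IsSolvable (⊤ : Subgroup (A i))), ?_⟩
    intro K
    have h4 : (K.map (⊤ : Subgroup (A i)).subtype).FG := hf _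
    obtain ⟨S, hS⟩ := h4
    classical
    have hinj : Function.Injective (⊤ : Subgroup (A i)).subtype := Subgroup.subtype_injective _
    refine ⟨S.preimage (⊤ : Subgroup (A i)).subtype hinj.injOn, ?_⟩
    apply Subgroup.map_injective hinj
    rw [MonoidHom.map_closure, ← hS]
    congr 1
    rw [Finset.coe_preimage, Set.image_preimage_eq]
    intro x
    exact ⟨⟨x, Subgroup.mem_top x⟩, rfl⟩
  obtain ⟨H, hH1, hH2, -⟩ := hall G (A 0) (A 1) (A 2) (hprod 0 1 (by decide))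
    (hprod 0 2 (by decide)) (hprod 1 2 (by decide)) (hpoly 0) (hpoly 1) (hpoly 2)
  exact h3 H hH1 hH2

end Pool.Agent.H7.TF
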