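import Pool.Agent.H7.TF.C0
import Pool.Agent.H7.TF.C2
import Pool.Agent.H7.TF.Fin
import Pool.Agent.H13.TF.A5
import Pool.Agent.H13.TF.A8
import Pool.Agent.H13.TF.C3
import Pool.Agent.H13.TF.C6
import Pool.Agent.H24.TF.C9
import Pool.Agent.H24.TF.C10
import Pool.Agent.H24.TF.C11
import Pool.Agent.H25.TF.DA
import Pool.Agent.H3.TF.B8
import Pool.Agent.H3.TF.B11
import Pool.Agent.H3.TF.C12
import Pool.Agent.H3.TF.DB
import Pool.Agent.H44.TF.A6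
import Pool.Agent.H44.TF.B3
import Pool.Agent.H44.TF.B4
import Pool.Agent.H47.TF.B1
import Pool.Agent.H47.TF.B2
import Pool.Agent.H47.TF.B7
import Pool.Agent.H48.TF.A9
import Pool.Agent.H48.TF.B5
import Pool.Agent.H48.TF.B6
import Pool.Agent.H64.TF.C5
import Pool.Agent.H64.TF.C7
import Pool.Agent.H64.TF.C8
import Pool.Agent.H73.TF.A123
import Pool.Agent.H73.TF.A4
import Pool.Agent.H77.TF.A7
import Pool.Agent.H77.TF.C4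
import Pool.Agent.H81.TF.D2
import Pool.Agent.H87.TF.D1
import Pool.Agent.H87.TF.D3
import Pool.Agent.H87.TF.D4
import Pool.Agent.H92.TF.B9
import Pool.Agent.H92.TF.B10
import Pool.Agent.H92.TF.C1

/-! # MP_7a929c_al : assembly -/

set_option autoImplicit false

namespace Pool.Agent.H7.TF

theorem m_A1 : T_A1 := Pool.Agent.H73.TF.A1
theorem m_A2 : T_A2 := Pool.Agent.H73.TF.A2
theorem m_A3 : T_A3 := Pool.Agent.H73.TF.A3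
theorem m_A4 : T_A4 := Pool.Agent.H73.TF.A4
theorem m_A5 : T_A5 := A5 m_A2
theorem m_A6 : T_A6 := Pool.Agent.H44.TF.a6 m_A1 m_A3
theorem m_A7 : T_A7 := Pool.Agent.H77.TF.A7 m_A4 m_A5
theorem m_A8 : T_A8 := A8
theorem m_A9 : T_A9 := TF48.A9
theorem m_B11 : T_B11 := b11
theorem m_B1 : T_B1 := Pool.Agent.H47.TF.B1 m_A3 m_A4
theorem m_B2 : T_B2 := Pool.Agent.H47.TF.B2 m_B1 m_B11
theorem m_B3 : T_B3 := Pool.Agent.H44.TF.b3 m_A3 m_A4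
theorem m_B4 : T_B4 := Pool.Agent.H44.TF.b4 m_B2 m_B3
theorem m_B5 : T_B5 := TF48.B5 m_A3
theorem m_B6 : T_B6 := TF48B6.B6
theorem m_B7 : T_B7 := Pool.Agent.H47.TF.B7 m_B1
theorem m_B8 : T_B8 := b8 m_B5 m_B6 m_B7 m_B11
theorem m_B9 : T_B9 := Pool.Agent.H92.TF.B9 m_A5 m_B4 m_B8
theorem m_B10 : T_B10 := Pool.Agent.H92.TF.B10 m_A7
theorem m_C0 : T_C0 := C0
theorem m_C1 : T_C1 := Pool.Agent.H92.TF.C1
theorem m_C2 : T_C2 := C2 m_A8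
theorem m_C3 : T_C3 := C3 m_C2
theorem m_C5 : T_C5 := Pool.Agent.H64.TF.C5 m_A9 m_C0 m_C1
theorem m_C6 : T_C6 := C6
theorem m_C7 : T_C7 := Pool.Agent.H64.TF.C7 m_A8 m_C0 m_C1
theorem m_C8 : T_C8 := Pool.Agent.H64.TF.C8
theorem m_C11 : T_C11 := Pool.Agent.H24.TF.C11 m_A9 m_A6 m_B9
theorem m_C12 : T_C12 := c12 m_B9
theorem m_D1 : T_D1 := Pool.Agent.H87.TF.d1
theorem m_D3 : T_D3 := Pool.Agent.H87.TF.d3
theorem m_DB : T_DB := db m_C11 m_D3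
theorem m_C4 : T_C4 := Pool.Agent.H77.TF.C4 m_B10 m_C0 m_C1
theorem m_C9 (hC4 : T_C4) : T_C9 :=
  Pool.Agent.H24.TF.C9 m_C3 hC4 m_C5 m_C6 m_C7 m_C8 m_A9 m_A6 m_A5
theorem m_C10 (hC4 : T_C4) : T_C10 :=
  Pool.Agent.H24.TF.C10 m_C3 hC4 m_C5 m_C6 m_C0 m_A9 m_A6 m_B9 m_B10
theorem m_DA (hC4 : T_C4) : T_DA := DA m_B11 (m_C9 hC4) (m_C10 hC4) m_C12
theorem m_D2 (hC4 : T_C4) : T_D2 := Pool.Agent.H81.TF.D2 (m_DA hC4) m_DB

theorem master :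
    ∃ (G : Type) (_ : Group G) (A : Fin 3 → Subgroup G),
      (∀ i j, i ≠ j → ∀ x : G, ∃ y ∈ A i, ∃ z ∈ A j, x = y * z) ∧
      (∀ i, IsSolvable (A i) ∧ ∀ K : Subgroup (A i), K.FG) ∧
      ∀ H : Subgroup G, H.index ≠ 0 → ¬ IsSolvable H :=
  Pool.Agent.H87.TF.d4 m_D1 (m_D2 m_C4)

end Pool.Agent.H7.TF
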