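import Pool.Agent.H7.TF.CtxBasic

/-! # MP_7a929c_al : module C0, the faces of the cut picture -/

set_option autoImplicit false

namespace Pool.Agent.H7.TF

open Equiv

section

variable {P : Type} [Group P] (c : Ctx P)

/-- the face permutation -/
abbrev Ctx.φ : Perm c.D := c.σ * c.θ

theorem Ctx.mem_O_iff {d : c.D} : d ∈ c.O ↔ ∃ s, c.kind d = some (c.R.length, s, 0) ∨
    c.kind d = some (c.R.length, s, 1) := Iff.rfl

theorem Ctx.mem_O_of_kind {d : c.D} {s : Bool} {k : ℕ} (h : c.kind d = some (c.R.length, s, k))
    (hk : k < 2) : d ∈ c.O := by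
  rw [c.mem_O_iff]
  refine ⟨s, ?_⟩
  interval_cases k
  · exact Or.inl h
  · exact Or.inr h

theorem Ctx.not_mem_O_of_kind {d : c.D} {j : ℕ} {s : Bool} {k : ℕ}
    (h : c.kind d = some (j, s, k)) (hk : 2 ≤ k ∨ j ≠ c.R.length) : d ∉ c.O := by
  rw [c.mem_O_iff]
  rintro ⟨s', h' | h'⟩ <;> rw [h] at h' <;> simp at h' <;> omega

/-- `ω` preserves the position of an output corner -/
theorem Ctx.kind_same {o z : c.D} (ho : o ∈ c.O) (hz : z ∈ c.O) (hs : c.σ.SameCycle o z)
    {s : Bool} {k : ℕ} (hk : c.kind o = some (c.R.length, s, k)) :
    ∃ s', c.kind z = some (c.R.length, s', k) := by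
  obtain ⟨x, κ, -, hu⟩ := c.out_uniform ho
  obtain ⟨s1, h1, -⟩ := hu o ho (Perm.SameCycle.refl _ _)
  obtain ⟨s2, h2, -⟩ := hu z hz hs
  rw [hk] at h1
  have : k = κ := by simp at h1; exact h1.2
  exact ⟨s2, by rw [h2, this]⟩

theorem Ctx.word_len : (⟨c.l, c.m, c.a, c.b, c.g⟩ : Rel P).word.length = c.g.length + 2 :=
  word_length _

theorem Ctx.kpow {o : c.D} {s : Bool} {k : ℕ} (hk : c.kind o = some (c.R.length, s, k)) (i : ℕ) :
    c.kind ((c.φ ^ i) o) = some (c.R.length, s, pos (c.g.length + 2) s k i) := by
  have := c.pic.kind_pow hk c.getElem_top i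
  rw [c.word_len] at this
  exact this

theorem Ctx.klt {o : c.D} {s : Bool} {k : ℕ} (hk : c.kind o = some (c.R.length, s, k)) :
    k < c.g.length + 2 := by
  have := c.pic.lt hk c.getElem_top
  rwa [c.word_len] at this

theorem pos_true {L k i : ℕ} (h : k + i < L) : pos L true k i = k + i := by
  simp [pos, Nat.mod_eq_of_lt h]

theorem pos_false {L k i : ℕ} (hL : 0 < L) (hi : i ≤ k) (hk : k < L) :
    pos L false k i = k - i := by
  have h1 : i ≤ L * i := Nat.le_mul_of_pos_left i hL
  simp only [pos, Bool.false_eq_true, if_false]
  rw [show k + L * i - i = (k - i) + L * i by omega, Nat.add_mul_mod_self_left,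
    Nat.mod_eq_of_lt (by omega)]

theorem pos_false' {L k i : ℕ} (hi : k < i) (hk : i ≤ L + k) (hkL : k < L) :
    pos L false k i = L + k - i := by
  have h1 : 1 ≤ i := by omega
  simp only [pos, Bool.false_eq_true, if_false]
  have h2 : L * i = L * (i - 1) + L := by
    obtain ⟨j, rfl⟩ : ∃ j, i = j + 1 := ⟨i - 1, by omega⟩
    simp; ring
  have h3 : i ≤ L * i := Nat.le_mul_of_pos_left i (by omega)
  rw [h2, show k + (L * (i - 1) + L) - i = (L + k - i) + L * (i - 1) by omega,
    Nat.add_mul_mod_self_left, Nat.mod_eq_of_lt (by omega)]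

/-- the cut face permutation agrees with the old one when the image is not an output corner -/
theorem Ctx.cut_apply {z : c.D} (hz : c.φ z ∉ c.O) : (c.ω * c.φ) z = c.φ z := by
  rw [Perm.mul_apply]; exact c.cut.off _ hz

theorem Ctx.cut_pow {o : c.D} {n : ℕ} (h : ∀ i, 1 ≤ i → i ≤ n → (c.φ ^ i) o ∉ c.O) :
    ∀ i ≤ n, ((c.ω * c.φ) ^ i) o = (c.φ ^ i) o := by
  apply pow_congr
  intro i hi
  rw [c.cut_apply]
  rw [← Perm.mul_apply, ← pow_succ']
  exact h (i + 1) (by omega) (by omega)

theorem Ctx.lab_cut {d : c.D} (hd : d ∉ c.O) : lab (c.ω * c.σ) c.h d = lab c.σ c.h d := by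
  have h1 : c.ω⁻¹ d = d := by
    have := c.cut.off d hd
    conv_lhs => rw [← this]
    simp
  rw [lab, lab, mul_inv_rev, Perm.mul_apply, h1]

theorem emb_inv (i : Fin 3) (x : P) : emb i x⁻¹ = (emb i x)⁻¹ := map_inv _ _

/-- the product of the letters of `g⁻¹` -/
theorem prod_getElem (f : ℕ → FP P) (X : List (Fin 3 × P)) (n : ℕ)
    (hn : n = X.length) (h : ∀ i (hi : i < X.length), f i = emb X[i].1 X[i].2) :
    ((List.range n).map f).prod = ev X := by
  subst hn
  have : (List.range X.length).map f = X.map (fun x => emb x.1 x.2) := by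
    apply List.ext_getElem
    · simp
    · intro i h1 h2
      simp only [List.getElem_map, List.getElem_range]
      exact h i (by simpa using h1)
  rw [this, ev]

end

theorem C0 : T_C0 := by
  intro P _ c
  refine ⟨?_, ?_, ?_⟩
  · intro o s k hk hk2
    have ho : o ∈ c.O := c.mem_O_of_kind hk hk2
    have hω : c.ω o ∈ c.O := c.cut.on o ho
    have hω' : c.ω⁻¹ o ∈ c.O := c.inv_mem ho
    have hrun : ∀ i, 1 ≤ i → i ≤ rl c.g.length s k →
        2 ≤ pos (c.g.length + 2) s k i := by
      intro i hi1 hi2
      unfold rl at hi2
      split_ifs at hi2 with hcase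
      · omega
      · interval_cases k
        · rcases s with _ | _
          · rw [pos_false' (by omega) (by omega) (by omega)]; omega
          · simp at hcase
        · rcases s with _ | _
          · simp at hcase
          · rw [pos_true (by omega)]; omega
    have hnot : ∀ i, 1 ≤ i → i ≤ rl c.g.length s k → (c.φ ^ i) o ∉ c.O := fun i hi1 hi2 =>
      c.not_mem_O_of_kind (c.kpow hk i) (Or.inl (hrun i hi1 hi2))
    have hpow := c.cut_pow hnot
    refine ⟨ho, c.kind_same ho hω (c.cut.same o).symm hk,
      c.kind_same ho hω' (c.same_inv o) hk, ?_, ?_, ?_, ?_⟩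
    · intro i hi1 hi2
      exact ⟨hnot i hi1 hi2, hpow i hi2, _, c.kpow hk i⟩
    · rw [c.kpow hk]
      unfold rl
      congr 3
      interval_cases k
      · rcases s with _ | _
        · simp only [Bool.false_eq_true, false_and, Nat.zero_ne_one, and_false, or_self, if_false]
          rw [pos_false' (by omega) (by omega) (by omega)]; omega
        · simp only [true_and, and_self, Bool.true_eq_false, false_and, or_false, if_true]
          rw [pos_true (by omega)]
      · rcases s with _ | _
        · simp only [Bool.false_eq_true, false_and, and_self, or_true, if_true]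
          rw [pos_false (by omega) (by omega) (by omega)]
        · simp only [one_ne_zero, and_false, Bool.true_eq_false, false_and, or_self, if_false]
          unfold pos
          simp only [if_true]
          rw [show 1 + (c.g.length + 1) = c.g.length + 2 by omega, Nat.mod_self]
    · rw [pow_succ', Perm.mul_apply, hpow _ le_rfl, Perm.mul_apply, ← Perm.mul_apply c.φ,
        ← pow_succ']
    · -- the word
      have hlet : ∀ i, i < rl c.g.length s k →
          (⟨c.l, c.m, c.a, c.b, c.g⟩ : Rel P).word[pos (c.g.length + 2) s k (i + 1)]? =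
            some (c.ty ((c.φ ^ (i + 1)) o), if s then lab c.σ c.h ((c.φ ^ (i + 1)) o)
              else (lab c.σ c.h ((c.φ ^ (i + 1)) o))⁻¹) := fun i hi =>
        c.pic.letter (c.kpow hk (i + 1)) c.getElem_top
      have helt : ∀ i, i < rl c.g.length s k →
          elt (c.ω * c.σ) c.h c.ty ((c.φ ^ (i + 1)) o) =
            emb (c.ty ((c.φ ^ (i + 1)) o)) (lab c.σ c.h ((c.φ ^ (i + 1)) o)) := by
        intro i hi
        rw [elt, c.lab_cut (hnot (i + 1) (by omega) (by omega))]
      by_cases hcase : (s = true ∧ k = 0) ∨ (s = false ∧ k = 1)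
      · rw [if_pos hcase, rl, if_pos hcase]; simp
      · rw [if_neg hcase]
        have hrl : rl c.g.length s k = c.g.length := by rw [rl, if_neg hcase]
        rw [hrl] at hlet helt ⊢
        interval_cases k
        · rcases s with _ | _
          · simp only [Bool.false_eq_true, if_false] at hlet ⊢
            have : ev c.g = ev (invW (invW c.g)) := by rw [invW_invW]
            rw [this]
            apply prod_getElem
            · simp
            · intro i hi
              have hi' : i < c.g.length := by simpa using hi
              have h1 := hlet i hi'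
              rw [pos_false' (by omega) (by omega) (by omega),
                show c.g.length + 2 + 0 - (i + 1) = (c.g.length - 1 - i) + 1 + 1 by omega] at h1
              simp only [Rel.word, List.getElem?_cons_succ] at h1
              have hlen : c.g.length - 1 - i < (invW c.g).length := by simp; omega
              rw [List.getElem?_eq_getElem hlen] at h1
              have h2 : (invW c.g)[c.g.length - 1 - i] = (c.ty ((c.φ ^ (i + 1)) o),
                (lab c.σ c.h ((c.φ ^ (i + 1)) o))⁻¹) := by simpa using h1
              rw [helt i hi']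
              have h3 : (invW (invW c.g))[i] = ((invW c.g)[c.g.length - 1 - i].1,
                  ((invW c.g)[c.g.length - 1 - i].2)⁻¹) := by
                have : ∀ (Y : List (Fin 3 × P)) (i : ℕ) (h1 : i < (invW Y).length)
                    (h2 : Y.length - 1 - i < Y.length),
                    (invW Y)[i] = (Y[Y.length - 1 - i].1, (Y[Y.length - 1 - i].2)⁻¹) := by
                  intro Y i h1 h2
                  simp [invW]
                have h4 := this (invW c.g) i (by simpa using hi') (by simp; omega)
                simpa using h4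
              rw [h3, h2]
              simp
          · simp at hcase
        · rcases s with _ | _
          · simp at hcase
          · simp only [if_true] at hlet ⊢
            rw [← ev_invW]
            apply prod_getElem
            · simp
            · intro i hi
              have hi' : i < c.g.length := by simpa using hi
              have h1 := hlet i hi'
              rw [pos_true (by omega), show 1 + (i + 1) = i + 1 + 1 by omega] at h1
              simp only [Rel.word, List.getElem?_cons_succ] at h1
              rw [List.getElem?_eq_getElem hi] at h1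
              have h2 : (invW c.g)[i] = (c.ty ((c.φ ^ (i + 1)) o),
                lab c.σ c.h ((c.φ ^ (i + 1)) o)) := by simpa using h1
              rw [helt i hi', h2]
  · intro z s k hk hz
    have hk2 : 2 ≤ k := by
      by_contra hlt
      exact hz (c.mem_O_of_kind hk (by omega))
    have hkL := c.klt hk
    have hper : (c.φ ^ (c.g.length + 2)) z = z := by
      have := c.pic.pow_length hk c.getElem_top
      rwa [c.word_len] at this
    rcases s with _ | _
    · -- negative face
      refine ⟨(c.φ ^ k) z, 0, c.g.length + 2 - k, by norm_num, ?_, by omega, ?_, ?_⟩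
      · rw [c.kpow hk, pos_false (by omega) le_rfl hkL]; simp
      · simp [rl]; omega
      · rw [← Perm.mul_apply, ← pow_add, show c.g.length + 2 - k + k = c.g.length + 2 by omega,
          hper]
    · refine ⟨(c.φ ^ (c.g.length + 2 - (k - 1))) z, 1, k - 1, by norm_num, ?_, by omega, ?_, ?_⟩
      · rw [c.kpow hk]
        unfold pos
        simp only [if_true]
        rw [show k + (c.g.length + 2 - (k - 1)) = 1 + (c.g.length + 2) by omega, Nat.add_mod_right,
          Nat.mod_eq_of_lt (by omega)]
      · simp [rl]; omega
      · rw [← Perm.mul_apply, ← pow_add,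
          show k - 1 + (c.g.length + 2 - (k - 1)) = c.g.length + 2 by omega, hper]
  · intro z hz
    have h1 : z ∉ c.O := by
      rw [c.mem_O_iff]
      rintro ⟨s, h | h⟩ <;> rw [hz] at h <;> simp at h
    have h2 : c.kind (c.φ z) = none :=
      (c.pic.kind_none_iff (sameCycle_self_apply _ z)).1 hz
    refine ⟨h1, h2, ?_⟩
    apply c.cut_apply
    rw [c.mem_O_iff]
    rintro ⟨s, h | h⟩ <;> rw [h2] at h <;> simp at h

end Pool.Agent.H7.TF
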